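import Mathlib
import Pool.Agent.Q72.Psh.Defs

/-!
# Residual functions and rooftop envelopes of negative plurisubharmonic functions
-/

set_option autoImplicit false

open Metric Set Filter Topology

namespace Q72.Res

open Q72.Psh

/-- `ℂⁿ` -/
abbrev Cn (n : ℕ) := EuclideanSpace ℂ (Fin n)

/-- `D` is a bounded B-regular domain in `ℂⁿ`: every continuous real function on the boundary of
`D` extends to a continuous function on the closure of `D` that is plurisubharmonic in `D`. -/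
def IsBRegular {n : ℕ} (D : Set (Cn n)) : Prop :=
  IsOpen D ∧ IsConnected D ∧ Bornology.IsBounded D ∧
    ∀ f : Cn n → ℝ, ContinuousOn f (frontier D) →
      ∃ F : Cn n → ℝ, ContinuousOn F (closure D) ∧ (∀ z ∈ frontier D, F z = f z) ∧
        IsPSH D (fun z => ((F z : ℝ) : EReal))

/-- `PSH⁻(D)`: the plurisubharmonic functions `v ≤ 0` on `D` with `v ≢ -∞`. -/
def PSHneg {n : ℕ} (D : Set (Cn n)) : Set (Cn n → EReal) :=
  {v | IsPSH D v ∧ (∀ z ∈ D, v z ≤ 0) ∧ ∃ z ∈ D, v z ≠ ⊥}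

/-- upper semicontinuous regularization `f^*(z) = limsup_{x → z} f(x)` -/
noncomputable def reg {n : ℕ} (f : Cn n → EReal) (z : Cn n) : EReal := limsup f (𝓝 z)

/-- The psh envelope `P(h) = (sup {v ∈ PSH(D) : v ≤ h on D})^*`. -/
noncomputable def env {n : ℕ} (D : Set (Cn n)) (h : Cn n → EReal) : Cn n → EReal :=
  reg (fun x => sSup {t | ∃ v : Cn n → EReal, IsPSH D v ∧ (∀ y ∈ D, v y ≤ h y) ∧ t = v x})

/-- The residual (Green-Poisson) function
`g_φ = (sup {v ∈ PSH⁻(D) : v ≤ φ + C_v on D for some constant C_v})^*`. -/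
noncomputable def res {n : ℕ} (D : Set (Cn n)) (φ : Cn n → EReal) : Cn n → EReal :=
  reg (fun x => sSup {t | ∃ v ∈ PSHneg D, (∃ C : ℝ, ∀ y ∈ D, v y ≤ φ y + (C : EReal)) ∧ t = v x})

/-- The rooftop envelope `P(u,v) = P(min{u,v})`. -/
noncomputable def roof {n : ℕ} (D : Set (Cn n)) (u v : Cn n → EReal) : Cn n → EReal :=
  env D (fun y => min (u y) (v y))

/-- The asymptotic rooftop `P[φ](ψ) = (sup_C P(ψ, φ + C))^*`. -/
noncomputable def asymRoof {n : ℕ} (D : Set (Cn n)) (φ ψ : Cn n → EReal) : Cn n → EReal :=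
  reg (fun x => ⨆ C : ℝ, roof D ψ (fun y => φ y + (C : EReal)) x)

end Q72.Res
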