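import Mathlib
import Pool.Agent.Q72.Psh.Basic
import Pool.Agent.Q72.Res.Defs

/-!
# Basic tools
-/

set_option autoImplicit false

open Metric Set Filter Topology

namespace Q72.Res

open Q72.Psh

variable {n : ℕ} {D : Set (Cn n)}

/-- mean value of the real part of a function analytic near the closed disc -/
lemma avg_re' {p : ℂ → ℂ} (hp : AnalyticOnNhd ℂ p (closedBall 0 1)) :
    Real.circleAverage (fun ζ => (p ζ).re) 0 1 = (p 0).re := by
  have hc : ContinuousOn p (closedBall 0 1) := hp.continuousOn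
  have h1 : Real.circleAverage p 0 1 = p 0 := by
    apply DiffContOnCl.circleAverage
    rw [abs_one]
    refine ⟨hp.differentiableOn.mono ball_subset_closedBall, ?_⟩
    rw [closure_ball (0 : ℂ) one_ne_zero]
    exact hc
  have h2 := Complex.reCLM.circleAverage_comp_comm (f := p) (c := 0) (R := 1)
    ((hc.mono sphere_subset_closedBall).circleIntegrable zero_le_one)
  rw [h1] at h2
  exact h2

lemma analytic_comp (hD : IsOpen D) {F : Cn n → ℂ} (hF : DifferentiableOn ℂ F D) {φ : ℂ → Cn n}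
    (hφ : AnalyticOnNhd ℂ φ (closedBall 0 1)) (hm : MapsTo φ (closedBall 0 1) D) :
    AnalyticOnNhd ℂ (fun ζ => F (φ ζ)) (closedBall 0 1) := by
  intro ζ hζ
  rw [Complex.analyticAt_iff_eventually_differentiableAt]
  have h3 := (hφ ζ hζ).eventually_analyticAt
  have h4 : ∀ᶠ z in 𝓝 ζ, φ z ∈ D :=
    (hφ ζ hζ).continuousAt.eventually (hD.mem_nhds (hm hζ))
  filter_upwards [h3, h4] with z hz hz'
  exact ((hF (φ z) hz').differentiableAt (hD.mem_nhds hz')).comp z hz.differentiableAt

lemma usc_of_continuousOn {v : Cn n → ℝ} (hv : ContinuousOn v D) :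
    UpperSemicontinuousOn (fun z => ((v z : ℝ) : EReal)) D := by
  have h : ContinuousOn (fun z => ((v z : ℝ) : EReal)) D :=
    continuous_coe_real_ereal.comp_continuousOn hv
  exact h.upperSemicontinuousOn

/-- A continuous function that at each point is touched from below by the real part of a
holomorphic minorant is plurisubharmonic. -/
theorem isPSH_of_support (hD : IsOpen D) {v : Cn n → ℝ} (hv : ContinuousOn v D)
    (hs : ∀ x ∈ D, ∀ ε > 0, ∃ F : Cn n → ℂ, DifferentiableOn ℂ F D ∧ (∀ y ∈ D, (F y).re ≤ v y) ∧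
      v x - ε ≤ (F x).re) : IsPSH D (fun z => ((v z : ℝ) : EReal)) := by
  refine ⟨usc_of_continuousOn hv, fun x _ => EReal.coe_ne_top _, ?_⟩
  intro φ hφ hm h hh hle
  beta_reduce
  rw [EReal.coe_le_coe_iff]
  apply le_of_forall_pos_le_add
  intro ε hε
  obtain ⟨F, hF, hF1, hF2⟩ := hs (φ 0) (hm (mem_closedBall_self zero_le_one)) ε hε
  have hA := analytic_comp hD hF hφ hm
  have h1 := avg_re' hA
  have h2 : Real.circleAverage (fun ζ => (F (φ ζ)).re) 0 1 ≤ Real.circleAverage h 0 1 := by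
    apply Real.circleAverage_mono
    · exact (Complex.continuous_re.comp_continuousOn
        (hA.continuousOn.mono sphere_subset_closedBall)).circleIntegrable zero_le_one
    · exact hh.circleIntegrable zero_le_one
    · intro ζ hζ
      rw [abs_one] at hζ
      have := hle ζ hζ
      beta_reduce at this
      rw [EReal.coe_le_coe_iff] at this
      exact (hF1 _ (hm (sphere_subset_closedBall hζ))).trans this
  rw [h1] at h2
  linarith

/-- real parts of holomorphic functions are plurisubharmonic -/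
theorem isPSH_re (hD : IsOpen D) {F : Cn n → ℂ} (hF : DifferentiableOn ℂ F D) :
    IsPSH D (fun z => (((F z).re : ℝ) : EReal)) :=
  isPSH_of_support hD (Complex.continuous_re.comp_continuousOn hF.continuousOn)
    (fun x _ ε hε => ⟨F, hF, fun _ _ => le_rfl, by linarith⟩)

/-- The way the sub-mean value property is used: a majorant on the circle which is the real part
of a function analytic near the closed disc. -/
theorem le_re_of_le {v : Cn n → EReal} (hv : IsPSH D v) {φ : ℂ → Cn n}
    (hφ : AnalyticOnNhd ℂ φ (closedBall 0 1)) (hm : MapsTo φ (closedBall 0 1) D) {G : ℂ → ℂ}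
    (hG : AnalyticOnNhd ℂ G (closedBall 0 1))
    (hle : ∀ ζ ∈ sphere (0 : ℂ) 1, v (φ ζ) ≤ (((G ζ).re : ℝ) : EReal)) :
    v (φ 0) ≤ (((G 0).re : ℝ) : EReal) := by
  rw [← avg_re' hG]
  exact hv.2.2 φ hφ hm (fun ζ => (G ζ).re)
    (Complex.continuous_re.comp_continuousOn (hG.continuousOn.mono sphere_subset_closedBall)) hle

lemma le_reg (f : Cn n → EReal) (z : Cn n) : f z ≤ reg f z := by
  unfold reg
  apply Filter.le_limsup_of_frequently_le
  · intro h
    exact h.self_of_nhds le_rfl
  · isBoundedDefault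

lemma reg_le {f : Cn n → EReal} {g : Cn n → ℝ} (hD : IsOpen D) (hg : ContinuousOn g D)
    (h : ∀ x ∈ D, f x ≤ ((g x : ℝ) : EReal)) {z : Cn n} (hz : z ∈ D) :
    reg f z ≤ ((g z : ℝ) : EReal) := by
  unfold reg
  have h1 : Tendsto (fun x => ((g x : ℝ) : EReal)) (𝓝 z) (𝓝 ((g z : ℝ) : EReal)) :=
    (continuous_coe_real_ereal.tendsto _).comp (hg.continuousAt (hD.mem_nhds hz))
  rw [← h1.limsup_eq]
  apply Filter.limsup_le_limsup
  · filter_upwards [hD.mem_nhds hz] with x hx using h x hx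
  · isBoundedDefault
  · isBoundedDefault

/-- lower bound of the residual function by a competitor -/
lemma le_res {φ v : Cn n → EReal} (hv : v ∈ PSHneg D)
    (hC : ∃ C : ℝ, ∀ y ∈ D, v y ≤ φ y + (C : EReal)) (z : Cn n) : v z ≤ res D φ z := by
  unfold res
  refine le_trans ?_ (le_reg _ z)
  exact le_sSup ⟨v, hv, hC, rfl⟩

/-- upper bound of the residual function -/
lemma res_le {φ : Cn n → EReal} {g : Cn n → ℝ} (hD : IsOpen D) (hg : ContinuousOn g D)
    (h : ∀ v ∈ PSHneg D, (∃ C : ℝ, ∀ y ∈ D, v y ≤ φ y + (C : EReal)) →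
      ∀ x ∈ D, v x ≤ ((g x : ℝ) : EReal)) {z : Cn n} (hz : z ∈ D) :
    res D φ z ≤ ((g z : ℝ) : EReal) := by
  apply reg_le hD hg _ hz
  intro x hx
  apply sSup_le
  rintro t ⟨v, hv, hC, rfl⟩
  exact h v hv hC x hx

lemma le_env {h v : Cn n → EReal} (hv : IsPSH D v) (hle : ∀ y ∈ D, v y ≤ h y) (z : Cn n) :
    v z ≤ env D h z := by
  unfold env
  refine le_trans ?_ (le_reg _ z)
  exact le_sSup ⟨v, hv, hle, rfl⟩

lemma env_le {h : Cn n → EReal} {g : Cn n → ℝ} (hD : IsOpen D) (hg : ContinuousOn g D)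
    (hh : ∀ v, IsPSH D v → (∀ y ∈ D, v y ≤ h y) → ∀ x ∈ D, v x ≤ ((g x : ℝ) : EReal))
    {z : Cn n} (hz : z ∈ D) : env D h z ≤ ((g z : ℝ) : EReal) := by
  apply reg_le hD hg _ hz
  intro x hx
  apply sSup_le
  rintro t ⟨v, hv, hC, rfl⟩
  exact hh v hv hC x hx

end Q72.Res
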