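import Mathlib
import Pool.Agent.Q72.Res.Basic

/-!
# The unit ball is B-regular
-/

set_option autoImplicit false

open Metric Set Filter Topology

namespace Q72.Res

open Q72.Psh

variable {n : ℕ}

/-- real affine functions -/
noncomputable def aff (p : Cn n × ℝ) (y : Cn n) : ℝ := p.2 + (inner ℂ p.1 y).re

lemma continuous_aff (p : Cn n × ℝ) : Continuous (aff p) := by
  unfold aff
  fun_prop

lemma aff_le (hn : 0 < n) {p : Cn n × ℝ} {M : ℝ} (h : ∀ y ∈ sphere (0 : Cn n) 1, aff p y ≤ M)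
    {x : Cn n} (hx : x ∈ closedBall (0 : Cn n) 1) : aff p x ≤ M := by
  have hx1 : ‖x‖ ≤ 1 := by simpa using hx
  have h1 : aff p x ≤ p.2 + ‖p.1‖ := by
    unfold aff
    have h2 : (inner ℂ p.1 x).re ≤ ‖p.1‖ * ‖x‖ :=
      (Complex.re_le_norm _).trans (norm_inner_le_norm p.1 x)
    have h3 : ‖p.1‖ * ‖x‖ ≤ ‖p.1‖ * 1 := mul_le_mul_of_nonneg_left hx1 (norm_nonneg _)
    linarith
  refine h1.trans ?_
  by_cases ha : p.1 = 0
  · have h2 := h (EuclideanSpace.single ⟨0, hn⟩ 1) (by simp)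
    unfold aff at h2
    rw [ha, inner_zero_left, Complex.zero_re, add_zero] at h2
    rw [ha, norm_zero, add_zero]
    exact h2
  · have hn0 : ‖p.1‖ ≠ 0 := norm_ne_zero_iff.2 ha
    have h2 := h (((‖p.1‖⁻¹ : ℝ) : ℂ) • p.1) (by
      rw [mem_sphere_zero_iff_norm, norm_smul, Complex.norm_real, norm_inv, norm_norm,
        inv_mul_cancel₀ hn0])
    unfold aff at h2
    rw [inner_smul_right, inner_self_eq_norm_sq_to_K, ] at h2
    have h3 : ((((‖p.1‖⁻¹ : ℝ) : ℂ)) * ((‖p.1‖ : ℂ)) ^ 2).re = ‖p.1‖ := by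
      rw [← Complex.ofReal_pow, ← Complex.ofReal_mul, Complex.ofReal_re]
      field_simp
    have h4 : (((‖p.1‖ : ℝ) : ℂ)) = ((‖p.1‖ : ℝ) : ℂ) := rfl
    erw [h3] at h2
    exact h2

/-- the affine minorants of `f` on the sphere -/
def minor (f : Cn n → ℝ) : Set (Cn n × ℝ) := {p | ∀ y ∈ sphere (0 : Cn n) 1, aff p y ≤ f y}

/-- the convex extension -/
noncomputable def ext (f : Cn n → ℝ) (x : Cn n) : ℝ := sSup ((fun p => aff p x) '' minor f)

lemma one_sub_inner {ζ y : Cn n} (hζ : ζ ∈ sphere (0 : Cn n) 1) (hy : y ∈ sphere (0 : Cn n) 1) :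
    1 - (inner ℂ ζ y).re = ‖y - ζ‖ ^ 2 / 2 := by
  have h1 := @norm_sub_sq ℂ (Cn n) _ _ _ y ζ
  rw [mem_sphere_zero_iff_norm] at hζ hy
  rw [hζ, hy] at h1
  have h2 : (inner ℂ y ζ).re = (inner ℂ ζ y).re := by
    rw [← inner_conj_symm, Complex.conj_re]
  rw [RCLike.re_to_complex, h2] at h1
  linarith

lemma barrier {f : Cn n → ℝ} (hf : ContinuousOn f (sphere (0 : Cn n) 1)) {M : ℝ}
    (hM : ∀ y ∈ sphere (0 : Cn n) 1, |f y| ≤ M) {ζ : Cn n} (hζ : ζ ∈ sphere (0 : Cn n) 1)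
    {ε : ℝ} (hε : 0 < ε) : ∃ K : ℝ, 0 ≤ K ∧ ∀ y ∈ sphere (0 : Cn n) 1,
      |f y - f ζ| ≤ ε + K * (1 - (inner ℂ ζ y).re) := by
  obtain ⟨δ, hδ, hδ1⟩ := Metric.continuousOn_iff.1 hf ζ hζ ε hε
  have hM0 : 0 ≤ M := (abs_nonneg _).trans (hM ζ hζ)
  refine ⟨4 * M / δ ^ 2, by positivity, fun y hy => ?_⟩
  rw [one_sub_inner hζ hy]
  by_cases h : dist y ζ < δ
  · have h1 := hδ1 y hy h
    rw [Real.dist_eq] at h1
    have h2 : 0 ≤ 4 * M / δ ^ 2 * (‖y - ζ‖ ^ 2 / 2) := by positivity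
    linarith
  · push_neg at h
    rw [dist_eq_norm] at h
    have h1 : |f y - f ζ| ≤ 2 * M := by
      have h2 := hM y hy
      have h3 := hM ζ hζ
      rw [abs_le] at *
      constructor <;> linarith
    have h2 : 2 * M ≤ 4 * M / δ ^ 2 * (‖y - ζ‖ ^ 2 / 2) := by
      have h3 : δ ^ 2 ≤ ‖y - ζ‖ ^ 2 := by gcongr
      have h4 : 4 * M / δ ^ 2 * (‖y - ζ‖ ^ 2 / 2) = 2 * M * (‖y - ζ‖ ^ 2 / δ ^ 2) := by
        field_simp; ring
      rw [h4]
      have h5 : 1 ≤ ‖y - ζ‖ ^ 2 / δ ^ 2 := by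
        rw [le_div_iff₀ (by positivity)]; linarith
      nlinarith
    linarith

lemma exists_bound (hn : 0 < n) {f : Cn n → ℝ} (hf : ContinuousOn f (sphere (0 : Cn n) 1)) :
    ∃ M : ℝ, ∀ y ∈ sphere (0 : Cn n) 1, |f y| ≤ M := by
  obtain ⟨M, hM⟩ := (isCompact_sphere (0 : Cn n) 1).exists_bound_of_continuousOn hf
  exact ⟨M, fun y hy => by simpa [Real.norm_eq_abs] using hM y hy⟩

lemma minor_nonempty {f : Cn n → ℝ} {M : ℝ} (hM : ∀ y ∈ sphere (0 : Cn n) 1, |f y| ≤ M) :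
    (minor f).Nonempty := by
  refine ⟨(0, -M), fun y hy => ?_⟩
  unfold aff
  simp only [inner_zero_left, Complex.zero_re, add_zero]
  have := hM y hy
  rw [abs_le] at this
  exact this.1

lemma bddAbove_minor (hn : 0 < n) {f : Cn n → ℝ} {M : ℝ}
    (hM : ∀ y ∈ sphere (0 : Cn n) 1, |f y| ≤ M) {x : Cn n} (hx : x ∈ closedBall (0 : Cn n) 1) :
    BddAbove ((fun p => aff p x) '' minor f) := by
  refine ⟨M, ?_⟩
  rintro _ ⟨p, hp, rfl⟩
  apply aff_le hn _ hx
  intro y hy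
  exact (hp y hy).trans ((le_abs_self _).trans (hM y hy))

lemma le_ext (hn : 0 < n) {f : Cn n → ℝ} {M : ℝ}
    (hM : ∀ y ∈ sphere (0 : Cn n) 1, |f y| ≤ M) {x : Cn n} (hx : x ∈ closedBall (0 : Cn n) 1)
    {p : Cn n × ℝ} (hp : p ∈ minor f) : aff p x ≤ ext f x :=
  le_csSup (bddAbove_minor hn hM hx) ⟨p, hp, rfl⟩

lemma ext_near (hn : 0 < n) {f : Cn n → ℝ} {M : ℝ}
    (hM : ∀ y ∈ sphere (0 : Cn n) 1, |f y| ≤ M) {ζ : Cn n} {ε K : ℝ}
    (hK : ∀ y ∈ sphere (0 : Cn n) 1, |f y - f ζ| ≤ ε + K * (1 - (inner ℂ ζ y).re))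
    {x : Cn n} (hx : x ∈ closedBall (0 : Cn n) 1) :
    |ext f x - f ζ| ≤ ε + K * (1 - (inner ℂ ζ x).re) := by
  rw [abs_le]
  constructor
  · have h1 : ((((K : ℝ) : ℂ) • ζ, f ζ - ε - K) : Cn n × ℝ) ∈ minor f := by
      intro y hy
      have h2 := hK y hy
      rw [abs_le] at h2
      unfold aff
      simp only [inner_smul_left, Complex.conj_ofReal, Complex.re_ofReal_mul]
      nlinarith [h2.1]
    have h2 := le_ext hn hM hx h1
    unfold aff at h2
    simp only [inner_smul_left, Complex.conj_ofReal, Complex.re_ofReal_mul] at h2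
    nlinarith [h2]
  · have h3 : ext f x ≤ f ζ + ε + K * (1 - (inner ℂ ζ x).re) := by
      apply csSup_le ((minor_nonempty hM).image _)
      rintro _ ⟨p, hp, rfl⟩
      have h4 : aff (p.1 + ((K : ℝ) : ℂ) • ζ, p.2 - (f ζ + ε + K)) x ≤ 0 := by
        apply aff_le hn _ hx
        intro y hy
        have h5 := hK y hy
        rw [abs_le] at h5
        have h6 := hp y hy
        unfold aff at h6 ⊢
        simp only [inner_add_left, inner_smul_left, Complex.conj_ofReal, Complex.add_re,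
          Complex.re_ofReal_mul]
        nlinarith [h5.2]
      unfold aff at h4 ⊢
      simp only [inner_add_left, inner_smul_left, Complex.conj_ofReal, Complex.add_re,
        Complex.re_ofReal_mul] at h4
      nlinarith [h4]
    linarith

lemma ext_eq (hn : 0 < n) {f : Cn n → ℝ} (hf : ContinuousOn f (sphere (0 : Cn n) 1))
    {ζ : Cn n} (hζ : ζ ∈ sphere (0 : Cn n) 1) : ext f ζ = f ζ := by
  obtain ⟨M, hM⟩ := exists_bound hn hf
  have h : ∀ ε > 0, |ext f ζ - f ζ| ≤ ε := by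
    intro ε hε
    obtain ⟨K, hK0, hK⟩ := barrier hf hM hζ hε
    have h1 := ext_near hn hM hK (sphere_subset_closedBall hζ)
    have h2 : 1 - (inner ℂ ζ ζ).re = 0 := by
      rw [one_sub_inner hζ hζ]; simp
    rw [h2, mul_zero, add_zero] at h1
    exact h1
  have h2 : |ext f ζ - f ζ| ≤ 0 := le_of_forall_pos_le_add (fun ε hε => by
    have := h ε hε; linarith)
  have h3 := abs_nonpos_iff.1 h2
  linarith

lemma convexOn_ext (hn : 0 < n) {f : Cn n → ℝ} {M : ℝ}
    (hM : ∀ y ∈ sphere (0 : Cn n) 1, |f y| ≤ M) :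
    ConvexOn ℝ (ball (0 : Cn n) 1) (ext f) := by
  refine ⟨convex_ball _ _, ?_⟩
  intro x hx y hy a b ha hb hab
  apply csSup_le ((minor_nonempty hM).image _)
  rintro _ ⟨p, hp, rfl⟩
  have h1 := le_ext hn hM (ball_subset_closedBall hx) hp
  have h2 := le_ext hn hM (ball_subset_closedBall hy) hp
  have h3 : aff p (a • x + b • y) = a * aff p x + b * aff p y := by
    unfold aff
    rw [inner_add_right]
    have e1 : inner ℂ p.1 (a • x) = (a : ℂ) * inner ℂ p.1 x := by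
      rw [← inner_smul_right]
      congr 1
    have e2 : inner ℂ p.1 (b • y) = (b : ℂ) * inner ℂ p.1 y := by
      rw [← inner_smul_right]
      congr 1
    rw [e1, e2, Complex.add_re, Complex.re_ofReal_mul, Complex.re_ofReal_mul]
    have : p.2 = a * p.2 + b * p.2 := by rw [← add_mul, hab, one_mul]
    nlinarith
  beta_reduce
  rw [h3, smul_eq_mul, smul_eq_mul]
  gcongr

lemma continuousOn_ext (hn : 0 < n) {f : Cn n → ℝ} (hf : ContinuousOn f (sphere (0 : Cn n) 1)) :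
    ContinuousOn (ext f) (closedBall (0 : Cn n) 1) := by
  obtain ⟨M, hM⟩ := exists_bound hn hf
  have h1 : ContinuousOn (ext f) (ball (0 : Cn n) 1) :=
    (convexOn_ext hn hM).continuousOn isOpen_ball
  intro x hx
  by_cases hx1 : x ∈ ball (0 : Cn n) 1
  · exact ((h1 x hx1).continuousAt (isOpen_ball.mem_nhds hx1)).continuousWithinAt
  · have hxs : x ∈ sphere (0 : Cn n) 1 := by
      rw [mem_sphere_zero_iff_norm]
      rw [mem_closedBall_zero_iff] at hx
      rw [mem_ball_zero_iff, not_lt] at hx1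
      exact le_antisymm hx hx1
    rw [Metric.continuousWithinAt_iff]
    intro ε hε
    obtain ⟨K, hK0, hK⟩ := barrier hf hM hxs (half_pos hε)
    have h2 : Tendsto (fun y : Cn n => K * (1 - (inner ℂ x y).re)) (𝓝 x)
        (𝓝 (K * (1 - (inner ℂ x x).re))) := by
      apply Continuous.tendsto
      fun_prop
    have h3 : 1 - (inner ℂ x x).re = 0 := by
      rw [one_sub_inner hxs hxs]; simp
    rw [h3, mul_zero] at h2
    have h4 := h2.eventually (gt_mem_nhds (half_pos hε))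
    rw [Metric.eventually_nhds_iff] at h4
    obtain ⟨δ, hδ, hδ1⟩ := h4
    refine ⟨δ, hδ, fun {y} hy hyd => ?_⟩
    have h5 := ext_near hn hM hK hy
    rw [ext_eq hn hf hxs, Real.dist_eq]
    have h6 := hδ1 hyd
    linarith

theorem isPSH_ext (hn : 0 < n) {f : Cn n → ℝ} (hf : ContinuousOn f (sphere (0 : Cn n) 1)) :
    IsPSH (ball (0 : Cn n) 1) (fun z => ((ext f z : ℝ) : EReal)) := by
  obtain ⟨M, hM⟩ := exists_bound hn hf
  apply isPSH_of_support isOpen_ball ((continuousOn_ext hn hf).mono ball_subset_closedBall)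
  intro x hx ε hε
  obtain ⟨_, ⟨p, hp, rfl⟩, h1⟩ := exists_lt_of_lt_csSup ((minor_nonempty hM).image
    (fun p => aff p x)) (show ext f x - ε < sSup ((fun p => aff p x) '' minor f) from
      sub_lt_self _ hε)
  refine ⟨fun y => (p.2 : ℂ) + inner ℂ p.1 y, ?_, ?_, ?_⟩
  · apply DifferentiableOn.const_add
    exact (innerSL ℂ p.1).differentiable.differentiableOn
  · intro y hy
    rw [Complex.add_re, Complex.ofReal_re]
    exact le_ext hn hM (ball_subset_closedBall hy) hp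
  · rw [Complex.add_re, Complex.ofReal_re]
    exact h1.le

/-- the unit ball of `ℂⁿ`, `n ≥ 1`, is a bounded B-regular domain -/
theorem isBRegular_ball (hn : 0 < n) : IsBRegular (ball (0 : Cn n) 1) := by
  refine ⟨isOpen_ball, ?_, isBounded_ball, ?_⟩
  · exact ⟨⟨0, by simp⟩, (convex_ball (0 : Cn n) 1).isPreconnected⟩
  · have hne : (1 : ℝ) ≠ 0 := one_ne_zero
    haveI : Nonempty (Fin n) := ⟨⟨0, hn⟩⟩
    rw [frontier_ball (0 : Cn n) hne, closure_ball (0 : Cn n) hne]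
    intro f hf
    exact ⟨ext f, continuousOn_ext hn hf, fun z hz => ext_eq hn hf hz, isPSH_ext hn hf⟩

end Q72.Res
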