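import Mathlib
import Pool.Agent.Q72.Res.Basic

/-!
# Siegel coordinates on the ball of `ℂ²` and a Phragmén–Lindelöf principle
-/

set_option autoImplicit false

open Metric Set Filter Topology

namespace Q72.Res

open Q72.Psh

/-- the unit ball of `ℂ²` -/
abbrev B2 : Set (Cn 2) := ball (0 : Cn 2) 1

lemma norm_sq2 (z : Cn 2) : ‖z‖ ^ 2 = ‖z 0‖ ^ 2 + ‖z 1‖ ^ 2 := by
  rw [EuclideanSpace.norm_sq_eq, Fin.sum_univ_two]

lemma mem_B2 {z : Cn 2} : z ∈ B2 ↔ ‖z 0‖ ^ 2 + ‖z 1‖ ^ 2 < 1 := by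
  rw [← norm_sq2, mem_ball_zero_iff]
  constructor
  · intro h
    nlinarith [norm_nonneg z]
  · intro h
    nlinarith [norm_nonneg z]

/-- first Siegel coordinate -/
noncomputable def om (z : Cn 2) : ℂ := (1 + z 0) / (1 - z 0)

/-- second Siegel coordinate -/
noncomputable def ze (z : Cn 2) : ℂ := z 1 / (1 - z 0)

/-- the inverse map -/
noncomputable def XX (w ζ : ℂ) : Cn 2 := !₂[(w - 1) / (w + 1), 2 * ζ / (w + 1)]

@[simp] lemma XX_zero (w ζ : ℂ) : XX w ζ 0 = (w - 1) / (w + 1) := rfl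
@[simp] lemma XX_one (w ζ : ℂ) : XX w ζ 1 = 2 * ζ / (w + 1) := rfl

lemma one_sub_ne {z : Cn 2} (hz : z ∈ B2) : 1 - z 0 ≠ 0 := by
  intro h
  have h1 : z 0 = 1 := by linear_combination -h
  rw [mem_B2, h1, norm_one] at hz
  nlinarith [sq_nonneg ‖z 1‖]

lemma add_one_ne {w : ℂ} (hw : 0 ≤ w.re) : w + 1 ≠ 0 := by
  intro h
  have := congrArg Complex.re h
  simp at this
  linarith

lemma norm_sq_re_im (z : ℂ) : ‖z‖ ^ 2 = z.re ^ 2 + z.im ^ 2 := by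
  rw [← Complex.normSq_eq_norm_sq, Complex.normSq_apply]; ring

lemma re_om {z : Cn 2} (hz : z ∈ B2) :
    (om z).re - ‖ze z‖ ^ 2 = (1 - ‖z‖ ^ 2) / ‖1 - z 0‖ ^ 2 := by
  have h1 := one_sub_ne hz
  have h2 : (0 : ℝ) < ‖1 - z 0‖ ^ 2 := by positivity
  rw [norm_sq2]
  have h3 : (om z).re = (1 - ‖z 0‖ ^ 2) / ‖1 - z 0‖ ^ 2 := by
    unfold om
    rw [Complex.div_re, Complex.normSq_eq_norm_sq, ← add_div, norm_sq_re_im (z 0)]
    congr 1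
    simp
    ring
  have h4 : ‖ze z‖ ^ 2 = ‖z 1‖ ^ 2 / ‖1 - z 0‖ ^ 2 := by
    unfold ze; rw [norm_div, div_pow]
  rw [h3, h4, ← sub_div]
  congr 1
  ring

lemma om_pos {z : Cn 2} (hz : z ∈ B2) : ‖ze z‖ ^ 2 < (om z).re := by
  have h1 := re_om hz
  have h2 := one_sub_ne hz
  have h3 : ‖z‖ < 1 := by simpa using hz
  have h4 : 0 < (1 - ‖z‖ ^ 2) / ‖1 - z 0‖ ^ 2 := by
    apply div_pos _ (by positivity)
    nlinarith [norm_nonneg z]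
  linarith

lemma XX_mem {w ζ : ℂ} (h : ‖ζ‖ ^ 2 < w.re) : XX w ζ ∈ B2 := by
  have hw : 0 ≤ w.re := (sq_nonneg _).trans h.le
  have h1 := add_one_ne hw
  have h2 : (0 : ℝ) < ‖w + 1‖ ^ 2 := by positivity
  rw [mem_B2, XX_zero, XX_one, norm_div, norm_div, div_pow, div_pow, ← add_div, div_lt_one h2,
    norm_mul, mul_pow, norm_sq_re_im (w - 1), norm_sq_re_im (w + 1)]
  simp
  nlinarith

lemma om_XX {w ζ : ℂ} (h : 0 ≤ w.re) : om (XX w ζ) = w := by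
  have h1 := add_one_ne h
  unfold om
  rw [XX_zero]
  have h2 : 1 - (w - 1) / (w + 1) = 2 / (w + 1) := by field_simp; ring
  have h3 : 1 + (w - 1) / (w + 1) = 2 * w / (w + 1) := by field_simp; ring
  rw [h2, h3]
  field_simp

lemma ze_XX {w ζ : ℂ} (h : 0 ≤ w.re) : ze (XX w ζ) = ζ := by
  have h1 := add_one_ne h
  unfold ze
  rw [XX_zero, XX_one]
  have h2 : 1 - (w - 1) / (w + 1) = 2 / (w + 1) := by field_simp; ring
  rw [h2]
  field_simp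

lemma XX_om {z : Cn 2} (hz : z ∈ B2) : XX (om z) (ze z) = z := by
  have h1 := one_sub_ne hz
  have h2 : om z + 1 = 2 / (1 - z 0) := by
    unfold om; field_simp; ring
  have h3 : om z - 1 = 2 * z 0 / (1 - z 0) := by
    unfold om; field_simp; ring
  have h4 : (2 : ℂ) ≠ 0 := two_ne_zero
  ext i
  fin_cases i
  · change (om z - 1) / (om z + 1) = z 0
    rw [h2, h3]
    field_simp
  · change 2 * ze z / (om z + 1) = z 1
    rw [h2]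
    unfold ze
    field_simp

lemma analyticOnNhd_pair {p q : ℂ → ℂ} {S : Set ℂ} (hp : AnalyticOnNhd ℂ p S)
    (hq : AnalyticOnNhd ℂ q S) : AnalyticOnNhd ℂ (fun t => (!₂[p t, q t] : Cn 2)) S := by
  intro t ht
  rw [Complex.analyticAt_iff_eventually_differentiableAt]
  filter_upwards [(hp t ht).eventually_analyticAt, (hq t ht).eventually_analyticAt] with u h1 h2
  rw [differentiableAt_euclidean]
  intro i
  fin_cases i
  · exact h1.differentiableAt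
  · exact h2.differentiableAt

/-- The elementary majorant: on the circle, `min (0, A/4 - κ Re W)` is at most
`Re (-κ W + A W / (W + B)) + small`. -/
lemma majorant {x ρ κ A B : ℝ} (hx : 0 < x) (hρ0 : 0 < ρ) (hρ1 : ρ < 1) (hκ : 0 < κ) (hA : 0 < A)
    (hB : 0 < B) (hAB : 2 * κ * (1 - ρ ^ 2) * B ^ 2 ≤ A * x) {τ : ℂ} (hτ : ‖τ‖ = 1) {t : ℝ}
    (W : ℂ) (hW : W = x * (1 + ρ * τ) / (1 - ρ * τ)) (ht0 : t ≤ 0) (ht : t ≤ A / 4 - κ * W.re) :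
    t ≤ (-κ * W + A * W / (W + B)).re + κ * x * (1 - ρ ^ 2) / (2 * (1 + ρ ^ 2)) := by
  have hρτ : ‖(ρ : ℂ) * τ‖ < 1 := by
    rw [norm_mul, hτ, mul_one, Complex.norm_real, Real.norm_eq_abs, abs_of_pos hρ0]; exact hρ1
  have hne : (1 : ℂ) - ρ * τ ≠ 0 := by
    intro h
    have h1 : (ρ : ℂ) * τ = 1 := by linear_combination -h
    rw [h1, norm_one] at hρτ
    exact lt_irrefl _ hρτ
  have hN : (0 : ℝ) < ‖(1 : ℂ) - ρ * τ‖ ^ 2 := by positivity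
  have hτ2 : τ.re ^ 2 + τ.im ^ 2 = 1 := by rw [← norm_sq_re_im, hτ, one_pow]
  have e1 : ‖(1 : ℂ) - ρ * τ‖ ^ 2 = 1 + ρ ^ 2 - 2 * ρ * τ.re := by
    rw [norm_sq_re_im]
    simp
    linear_combination ρ ^ 2 * hτ2
  have e2 : ‖(1 : ℂ) + ρ * τ‖ ^ 2 = 1 + ρ ^ 2 + 2 * ρ * τ.re := by
    rw [norm_sq_re_im]
    simp
    linear_combination ρ ^ 2 * hτ2
  have e3 : W.re = x * (1 - ρ ^ 2) / ‖(1 : ℂ) - ρ * τ‖ ^ 2 := by
    rw [hW, Complex.div_re, Complex.normSq_eq_norm_sq, ← add_div]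
    congr 1
    simp
    linear_combination -(x * ρ ^ 2) * hτ2
  have e4 : ‖W‖ ^ 2 = x ^ 2 * ‖(1 : ℂ) + ρ * τ‖ ^ 2 / ‖(1 : ℂ) - ρ * τ‖ ^ 2 := by
    rw [hW, norm_div, norm_mul, div_pow, mul_pow, Complex.norm_real, Real.norm_eq_abs, sq_abs]
  have hρ2 : 0 < 1 - ρ ^ 2 := by nlinarith
  have e5 : W.re * (2 * (1 + ρ ^ 2) * x) = (1 - ρ ^ 2) * (‖W‖ ^ 2 + x ^ 2) := by
    rw [e3, e4]
    rw [div_mul_eq_mul_div, div_eq_iff hN.ne']
    have : (1 - ρ ^ 2) * (x ^ 2 * ‖(1 : ℂ) + ρ * τ‖ ^ 2 / ‖(1 : ℂ) - ρ * τ‖ ^ 2 + x ^ 2) *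
        ‖(1 : ℂ) - ρ * τ‖ ^ 2 = (1 - ρ ^ 2) * (x ^ 2 * ‖(1 : ℂ) + ρ * τ‖ ^ 2 +
        x ^ 2 * ‖(1 : ℂ) - ρ * τ‖ ^ 2) := by
      field_simp
    rw [this, e1, e2]
    ring
  have hWre : 0 < W.re := by rw [e3]; positivity
  have hWB : (0 : ℝ) < ‖W + B‖ ^ 2 := by
    have : W + B ≠ 0 := by
      intro h
      have := congrArg Complex.re h
      simp at this
      linarith
    positivity
  have e6 : (-κ * W + A * W / (W + B)).re = -κ * W.re +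
      A * ((‖W‖ ^ 2 + B * W.re) / ‖W + B‖ ^ 2) := by
    rw [Complex.add_re, Complex.div_re, Complex.normSq_eq_norm_sq, ← add_div, ← mul_div_assoc,
      norm_sq_re_im W]
    congr 1
    · simp
    · congr 1
      simp
      ring
  have e7 : ‖W + B‖ ^ 2 = ‖W‖ ^ 2 + 2 * B * W.re + B ^ 2 := by
    rw [norm_sq_re_im, norm_sq_re_im W]
    simp
    ring
  have hre_le : W.re ≤ ‖W‖ := Complex.re_le_norm W
  have hsm : W.re = (1 - ρ ^ 2) * (‖W‖ ^ 2 + x ^ 2) / (2 * (1 + ρ ^ 2) * x) := by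
    rw [eq_div_iff (by positivity)]; exact e5
  rw [e6]
  rcases le_or_gt ‖W‖ B with hc | hc
  · -- near part
    have h1 : ‖W + B‖ ^ 2 ≤ 4 * B ^ 2 := by
      rw [e7]; nlinarith [norm_nonneg W]
    have h2 : ‖W‖ ^ 2 / (4 * B ^ 2) ≤ (‖W‖ ^ 2 + B * W.re) / ‖W + B‖ ^ 2 := by
      apply div_le_div₀ (by positivity) _ hWB h1
      nlinarith [mul_pos hB hWre]
    have h3 : κ * W.re = κ * (1 - ρ ^ 2) / (2 * (1 + ρ ^ 2) * x) * ‖W‖ ^ 2 +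
        κ * x * (1 - ρ ^ 2) / (2 * (1 + ρ ^ 2)) := by
      rw [hsm]; field_simp
    have h4 : κ * (1 - ρ ^ 2) / (2 * (1 + ρ ^ 2) * x) * ‖W‖ ^ 2 ≤ A * (‖W‖ ^ 2 / (4 * B ^ 2)) := by
      rw [mul_div_assoc', div_mul_eq_mul_div, div_le_div_iff₀ (by positivity) (by positivity)]
      have h5 : 2 * κ * (1 - ρ ^ 2) * B ^ 2 * (2 * ‖W‖ ^ 2) ≤ A * x * (2 * ‖W‖ ^ 2) :=
        mul_le_mul_of_nonneg_right hAB (by positivity)
      have h6 : A * x * (2 * ‖W‖ ^ 2) ≤ A * x * (2 * ‖W‖ ^ 2) * (1 + ρ ^ 2) := by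
        have : 0 ≤ A * x * (2 * ‖W‖ ^ 2) := by positivity
        nlinarith [sq_nonneg ρ]
      nlinarith
    have h7 : A * (‖W‖ ^ 2 / (4 * B ^ 2)) ≤ A * ((‖W‖ ^ 2 + B * W.re) / ‖W + B‖ ^ 2) :=
      mul_le_mul_of_nonneg_left h2 hA.le
    linarith
  · have h1 : ‖W + B‖ ^ 2 ≤ 4 * ‖W‖ ^ 2 := by
      rw [e7]; nlinarith [norm_nonneg W]
    have h2 : (1 : ℝ) / 4 ≤ (‖W‖ ^ 2 + B * W.re) / ‖W + B‖ ^ 2 := by
      rw [div_le_div_iff₀ (by norm_num) hWB]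
      nlinarith [mul_pos hB hWre]
    have h3 : A * (1 / 4) ≤ A * ((‖W‖ ^ 2 + B * W.re) / ‖W + B‖ ^ 2) :=
      mul_le_mul_of_nonneg_left h2 hA.le
    have h4 : 0 ≤ κ * x * (1 - ρ ^ 2) / (2 * (1 + ρ ^ 2)) := by positivity
    linarith

end Q72.Res
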