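import Mathlib
import Pool.Agent.Q72.Res.PL

/-!
# The Phragmén–Lindelöf principle on vertical discs
-/

set_option autoImplicit false

open Metric Set Filter Topology

namespace Q72.Res

open Q72.Psh

lemma ereal_le_of_forall {t : EReal} {r : ℝ} (h : ∀ ε > 0, t ≤ ((r + ε : ℝ) : EReal)) :
    t ≤ (r : EReal) := by
  induction t with
  | bot => exact bot_le
  | top =>
    have := h 1 one_pos
    exact absurd (top_le_iff.1 this) (EReal.coe_ne_top _)
  | coe t =>
    rw [EReal.coe_le_coe_iff]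
    apply le_of_forall_pos_le_add
    intro ε hε
    have := h ε hε
    rwa [EReal.coe_le_coe_iff] at this

/-- real part of the Cayley transform -/
lemma cayley_re_pos {u : ℂ} (hu : ‖u‖ < 1) : 0 < ((1 + u) / (1 - u)).re := by
  have h1 : 1 - u ≠ 0 := by
    intro h
    have : u = 1 := by linear_combination -h
    rw [this, norm_one] at hu
    exact lt_irrefl _ hu
  rw [Complex.div_re, Complex.normSq_eq_norm_sq, ← add_div]
  apply div_pos _ (by positivity)
  have h2 := norm_sq_re_im u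
  have h3 : ‖u‖ ^ 2 < 1 := by nlinarith [norm_nonneg u]
  simp
  nlinarith

lemma choose_rho {x κ A B ε : ℝ} (hx : 0 < x) (hκ : 0 < κ) (hA : 0 < A) (hB : 0 < B) (hε : 0 < ε) :
    ∃ ρ : ℝ, 0 < ρ ∧ ρ < 1 ∧ 2 * κ * (1 - ρ ^ 2) * B ^ 2 ≤ A * x ∧
      κ * x * (1 - ρ ^ 2) / (2 * (1 + ρ ^ 2)) ≤ ε := by
  have h1 : 0 < A * x / (2 * κ * B ^ 2) := by positivity
  have h2 : 0 < ε / (κ * x) := by positivity
  obtain ⟨δ, hδ0, hδ⟩ := exists_between (lt_min (by norm_num : (0 : ℝ) < 1 / 2) (lt_min h1 h2))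
  rw [lt_min_iff, lt_min_iff] at hδ
  have h3 : √(1 - δ) ^ 2 = 1 - δ := Real.sq_sqrt (by linarith)
  refine ⟨√(1 - δ), Real.sqrt_pos.2 (by linarith), ?_, ?_, ?_⟩
  · rw [Real.sqrt_lt' one_pos]; linarith
  · rw [h3]
    have h4 := hδ.2.1
    rw [lt_div_iff₀ (by positivity)] at h4
    nlinarith
  · rw [h3, div_le_iff₀ (by linarith)]
    have h4 := hδ.2.2
    rw [lt_div_iff₀ (by positivity)] at h4
    nlinarith

/-- Phragmén–Lindelöf principle on the vertical discs `ζ = ζ₀`. -/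
theorem phragmen {v : Cn 2 → EReal} (hv : IsPSH B2 v) (hv0 : ∀ z ∈ B2, v z ≤ 0) {ζ0 : ℂ}
    {κ C : ℝ} (hκ : 0 < κ)
    (h : ∀ w : ℂ, ‖ζ0‖ ^ 2 < w.re → v (XX w ζ0) ≤ ((C - κ * w.re : ℝ) : EReal))
    {w : ℂ} (hw : ‖ζ0‖ ^ 2 < w.re) :
    v (XX w ζ0) ≤ ((-κ * (w.re - ‖ζ0‖ ^ 2) : ℝ) : EReal) := by
  set a : ℝ := ‖ζ0‖ ^ 2 with ha
  have ha0 : 0 ≤ a := by positivity
  set x : ℝ := w.re - a with hx
  have hx0 : 0 < x := by rw [hx]; linarith
  set A : ℝ := 4 * (max C 0 + 1) with hA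
  have hA0 : 0 < A := by rw [hA]; positivity
  have hCA : C ≤ A / 4 := by rw [hA]; have := le_max_left C 0; linarith
  apply ereal_le_of_forall
  intro ε hε
  have hB0 : 0 < 2 * A * x / ε := by positivity
  set B : ℝ := 2 * A * x / ε with hB
  obtain ⟨ρ, hρ0, hρ1, hρB, hρε⟩ := choose_rho hx0 hκ hA0 hB0 (half_pos hε)
  have hρl : ∀ t ∈ closedBall (0 : ℂ) 1, ‖(ρ : ℂ) * t‖ < 1 := by
    intro t ht
    rw [mem_closedBall_zero_iff] at ht
    rw [norm_mul, Complex.norm_real, Real.norm_eq_abs, abs_of_pos hρ0]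
    nlinarith [norm_nonneg t]
  have hne : ∀ t ∈ closedBall (0 : ℂ) 1, (1 : ℂ) - ρ * t ≠ 0 := by
    intro t ht h0
    have h1 : (ρ : ℂ) * t = 1 := by linear_combination -h0
    have h2 := hρl t ht
    rw [h1, norm_one] at h2
    exact lt_irrefl _ h2
  set W : ℂ → ℂ := fun t => x * (1 + ρ * t) / (1 - ρ * t) with hW
  have hWa : AnalyticOnNhd ℂ W (closedBall 0 1) := by
    intro t ht
    exact AnalyticAt.div (f := fun t : ℂ => (x : ℂ) * (1 + ρ * t)) (g := fun t : ℂ => 1 - ρ * t)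
      (by fun_prop) (by fun_prop) (hne t ht)
  have hWre : ∀ t ∈ closedBall (0 : ℂ) 1, 0 < (W t).re := by
    intro t ht
    have h1 := cayley_re_pos (hρl t ht)
    have h2 : W t = (x : ℂ) * ((1 + ρ * t) / (1 - ρ * t)) := by
      rw [hW]; ring
    rw [h2, Complex.re_ofReal_mul]
    positivity
  set f : ℂ → ℂ := fun t => (a : ℂ) + Complex.I * w.im + W t with hf
  have hfre : ∀ t, (f t).re = a + (W t).re := by
    intro t; rw [hf]; simp
  have hfa : AnalyticOnNhd ℂ f (closedBall 0 1) := by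
    intro t ht
    exact analyticAt_const.add (hWa t ht)
  have hf1 : ∀ t ∈ closedBall (0 : ℂ) 1, f t + 1 ≠ 0 := by
    intro t ht
    apply add_one_ne
    rw [hfre]
    have := hWre t ht
    linarith
  have hD : AnalyticOnNhd ℂ (fun t => XX (f t) ζ0) (closedBall 0 1) := by
    apply analyticOnNhd_pair
    · intro t ht
      exact ((hfa t ht).sub analyticAt_const).div ((hfa t ht).add analyticAt_const) (hf1 t ht)
    · intro t ht
      exact analyticAt_const.div ((hfa t ht).add analyticAt_const) (hf1 t ht)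
  have hlt : ∀ t ∈ closedBall (0 : ℂ) 1, ‖ζ0‖ ^ 2 < (f t).re := by
    intro t ht
    rw [hfre, ← ha]
    have := hWre t ht
    linarith
  have hm : MapsTo (fun t => XX (f t) ζ0) (closedBall 0 1) B2 := fun t ht => XX_mem (hlt t ht)
  set cst : ℝ := κ * x * (1 - ρ ^ 2) / (2 * (1 + ρ ^ 2)) with hcst
  set G : ℂ → ℂ := fun t => (-κ * W t + A * W t / (W t + B)) + (cst : ℂ) with hG
  have hWB : ∀ t ∈ closedBall (0 : ℂ) 1, W t + B ≠ 0 := by
    intro t ht h0
    have h1 := congrArg Complex.re h0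
    have h2 := hWre t ht
    simp at h1
    linarith
  have hGa : AnalyticOnNhd ℂ G (closedBall 0 1) := by
    intro t ht
    have h1 := hWa t ht
    exact ((analyticAt_const.mul h1).add ((analyticAt_const.mul h1).div
      (h1.add analyticAt_const) (hWB t ht))).add analyticAt_const
  have hle : ∀ t ∈ sphere (0 : ℂ) 1, v (XX (f t) ζ0) ≤ (((G t).re : ℝ) : EReal) := by
    intro t ht
    have htb : t ∈ closedBall (0 : ℂ) 1 := sphere_subset_closedBall ht
    have h1 := h (f t) (hlt t htb)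
    have h2 := hv0 _ (hm htb)
    have h3 : ‖t‖ = 1 := by simpa using ht
    have h4 : v (XX (f t) ζ0) ≤ ((min 0 (C - κ * (f t).re) : ℝ) : EReal) := by
      rcases min_choice 0 (C - κ * (f t).re) with h5 | h5 <;> rw [h5]
      · exact h2
      · exact h1
    refine h4.trans ?_
    rw [EReal.coe_le_coe_iff]
    have h5 := majorant hx0 hρ0 hρ1 hκ hA0 hB0 hρB h3 (t := min 0 (C - κ * (f t).re)) (W t) rfl
      (min_le_left _ _) (by
        refine (min_le_right _ _).trans ?_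
        rw [hfre]
        nlinarith)
    have e1 : (G t).re = (-κ * W t + A * W t / (W t + B)).re + cst := by
      simp only [hG, Complex.add_re, Complex.ofReal_re]
    rw [e1]
    exact h5
  have key := le_re_of_le hv hD hm hGa hle
  have hW0 : W 0 = (x : ℂ) := by rw [hW]; simp
  have hf0 : f 0 = w := by
    rw [hf]
    simp only [hW0]
    apply Complex.ext
    · simp [hx]
    · simp
  rw [hf0] at key
  refine key.trans ?_
  rw [EReal.coe_le_coe_iff, hG]
  simp only [hW0]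
  have e1 : (-(κ : ℂ) * (x : ℂ) + (A : ℂ) * (x : ℂ) / ((x : ℂ) + (B : ℂ)) + (cst : ℂ)) =
      (((-κ * x + A * x / (x + B) + cst : ℝ)) : ℂ) := by push_cast; ring
  rw [e1, Complex.ofReal_re]
  have e2 : A * x / (x + B) ≤ ε / 2 := by
    rw [div_le_iff₀ (by positivity)]
    have : ε / 2 * B = A * x := by rw [hB]; field_simp
    nlinarith
  linarith

end Q72.Res
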