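import Mathlib
import Pool.Agent.Q72.Res.PL2

/-!
# Upper bounds for negative plurisubharmonic functions with prescribed asymptotics at a boundary
point of the ball of `ℂ²`, and three residual functions
-/

set_option autoImplicit false

open Metric Set Filter Topology

namespace Q72.Res

open Q72.Psh

/-- `Ω = -(Re ω - |ζ|²)`, the pluricomplex Poisson kernel of the ball of `ℂ²` with pole `(1,0)` -/
noncomputable def Om (z : Cn 2) : ℝ := -(om z).re + ‖ze z‖ ^ 2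

/-- `φ = -Re (ω - ζ²)` -/
noncomputable def phip (z : Cn 2) : ℝ := -(om z - ze z ^ 2).re

/-- `ψ = -Re (ω + ζ²)` -/
noncomputable def phim (z : Cn 2) : ℝ := -(om z + ze z ^ 2).re

lemma differentiableAt_coord (i : Fin 2) (z : Cn 2) :
    DifferentiableAt ℂ (fun z : Cn 2 => z i) z :=
  (EuclideanSpace.proj (𝕜 := ℂ) i : Cn 2 →L[ℂ] ℂ).differentiableAt

lemma diff_div {f g : Cn 2 → ℂ} {z : Cn 2} (hf : DifferentiableAt ℂ f z)
    (hg : DifferentiableAt ℂ g z) (h : g z ≠ 0) : DifferentiableAt ℂ (fun z => f z / g z) z := by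
  fun_prop (disch := assumption)

lemma differentiableOn_om : DifferentiableOn ℂ om B2 := by
  intro z hz
  have h0 := differentiableAt_coord 0 z
  have ha : DifferentiableAt ℂ (fun z : Cn 2 => 1 + z 0) z := (differentiableAt_const _).add h0
  have hb : DifferentiableAt ℂ (fun z : Cn 2 => 1 - z 0) z := (differentiableAt_const _).sub h0
  have hne : (fun z : Cn 2 => 1 - z 0) z ≠ 0 := one_sub_ne hz
  exact (diff_div ha hb hne).differentiableWithinAt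

lemma differentiableOn_ze : DifferentiableOn ℂ ze B2 := by
  intro z hz
  have h0 := differentiableAt_coord 0 z
  have h1 := differentiableAt_coord 1 z
  have hb : DifferentiableAt ℂ (fun z : Cn 2 => 1 - z 0) z := (differentiableAt_const _).sub h0
  have hne : (fun z : Cn 2 => 1 - z 0) z ≠ 0 := one_sub_ne hz
  exact (diff_div h1 hb hne).differentiableWithinAt

lemma continuousOn_Om : ContinuousOn Om B2 := by
  unfold Om
  have h1 := differentiableOn_om.continuousOn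
  have h2 := differentiableOn_ze.continuousOn
  exact (Complex.continuous_re.comp_continuousOn h1).neg.add (h2.norm.pow 2)

lemma continuousOn_phip : ContinuousOn phip B2 := by
  unfold phip
  have h1 := differentiableOn_om.continuousOn
  have h2 := differentiableOn_ze.continuousOn
  exact (Complex.continuous_re.comp_continuousOn (h1.sub (h2.pow 2))).neg

lemma continuousOn_phim : ContinuousOn phim B2 := by
  unfold phim
  have h1 := differentiableOn_om.continuousOn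
  have h2 := differentiableOn_ze.continuousOn
  exact (Complex.continuous_re.comp_continuousOn (h1.add (h2.pow 2))).neg

lemma Om_neg {z : Cn 2} (hz : z ∈ B2) : Om z < 0 := by
  have := om_pos hz
  unfold Om; linarith

lemma abs_re_sq_le (ζ : ℂ) : |(ζ ^ 2).re| ≤ ‖ζ‖ ^ 2 := by
  rw [← norm_pow]; exact Complex.abs_re_le_norm _

lemma phip_le {z : Cn 2} : phip z ≤ Om z := by
  have := (abs_le.1 (abs_re_sq_le (ze z))).2
  unfold phip Om
  rw [Complex.sub_re]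
  linarith

lemma phim_le {z : Cn 2} : phim z ≤ Om z := by
  have := (abs_le.1 (abs_re_sq_le (ze z))).1
  unfold phim Om
  rw [Complex.add_re]
  linarith

lemma exists_theta {ε : ℝ} (hε : 0 < ε) : ∃ θ : ℝ, 0 < θ ∧ θ < 1 ∧ 1 - ε ≤ θ ^ 2 := by
  refine ⟨1 - min ε 1 / 2, ?_, ?_, ?_⟩
  · have := min_le_right ε 1; linarith
  · have := lt_min hε one_pos; linarith
  · have h1 := min_le_left ε 1
    nlinarith [sq_nonneg (min ε 1)]

/-- Phragmén–Lindelöf principle on vertical discs, with a loss `ε` in the hypothesis -/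
theorem phragmen' {v : Cn 2 → EReal} (hv : IsPSH B2 v) (hv0 : ∀ z ∈ B2, v z ≤ 0) {ζ0 : ℂ}
    {κ : ℝ} (hκ : 0 < κ)
    (h : ∀ ε > 0, ∃ C : ℝ, ∀ w : ℂ, ‖ζ0‖ ^ 2 < w.re →
      v (XX w ζ0) ≤ ((C - (κ - ε) * w.re : ℝ) : EReal))
    {w : ℂ} (hw : ‖ζ0‖ ^ 2 < w.re) :
    v (XX w ζ0) ≤ ((-κ * (w.re - ‖ζ0‖ ^ 2) : ℝ) : EReal) := by
  apply ereal_le_of_forall
  intro ε hε
  have hx : 0 < w.re - ‖ζ0‖ ^ 2 := by linarith
  have h2 : 0 < ε / (w.re - ‖ζ0‖ ^ 2) := by positivity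
  obtain ⟨δ, hδ0, hδ⟩ := exists_between (lt_min hκ h2)
  rw [lt_min_iff] at hδ
  obtain ⟨C, hC⟩ := h δ hδ0
  refine (phragmen hv hv0 (sub_pos.2 hδ.1) hC hw).trans ?_
  rw [EReal.coe_le_coe_iff]
  have h3 := hδ.2
  rw [lt_div_iff₀ hx] at h3
  nlinarith

/-- the horizontal discs -/
lemma horiz {v : Cn 2 → EReal} (hv : IsPSH B2 v) {w ζ0 : ℂ} {r : ℝ} (hr : 0 ≤ r)
    (hw : (‖ζ0‖ + r) ^ 2 < w.re) {G : ℂ → ℂ} (hG : Differentiable ℂ G)
    (hle : ∀ t : ℂ, ‖t‖ = 1 → v (XX w (ζ0 + r * t)) ≤ (((G t).re : ℝ) : EReal)) :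
    v (XX w ζ0) ≤ (((G 0).re : ℝ) : EReal) := by
  have hnorm : ∀ t : ℂ, ‖t‖ ≤ 1 → ‖ζ0 + r * t‖ ^ 2 < w.re := by
    intro t ht
    have h1 : ‖ζ0 + r * t‖ ≤ ‖ζ0‖ + r := by
      refine (norm_add_le _ _).trans ?_
      rw [norm_mul, Complex.norm_real, Real.norm_eq_abs, abs_of_nonneg hr]
      nlinarith [norm_nonneg t]
    have h2 : ‖ζ0 + r * t‖ ^ 2 ≤ (‖ζ0‖ + r) ^ 2 := by gcongr
    linarith
  have hwre : 0 ≤ w.re := (sq_nonneg _).trans hw.le
  have hw1 := add_one_ne hwre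
  have key := le_re_of_le hv (φ := fun t => XX w (ζ0 + r * t)) (G := G)
    (analyticOnNhd_pair (fun t _ => analyticAt_const) (fun t _ => by
      apply AnalyticAt.div _ analyticAt_const hw1
      fun_prop))
    (fun t ht => XX_mem (hnorm t (by simpa using ht)))
    (fun t _ => hG.analyticAt t)
    (fun t ht => hle t (by simpa using ht))
  simpa using key

lemma sqrt_room {Λ θ : ℝ} {b : ℝ} (hb : 0 ≤ b) (hΛ : b ^ 2 < Λ) (hθ0 : 0 < θ) (hθ1 : θ < 1) :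
    0 ≤ θ * (√Λ - b) ∧ (b + θ * (√Λ - b)) ^ 2 < Λ ∧ θ * (√Λ - b) ≤ √Λ ∧
      θ ^ 2 * Λ - 2 * √Λ * b ≤ (θ * (√Λ - b)) ^ 2 := by
  have hΛ0 : 0 ≤ Λ := (sq_nonneg b).trans hΛ.le
  have h1 : b < √Λ := by rw [Real.lt_sqrt hb]; exact hΛ
  have h2 : √Λ ^ 2 = Λ := Real.sq_sqrt hΛ0
  have h3 : 0 < √Λ - b := by linarith
  refine ⟨by positivity, ?_, ?_, ?_⟩
  · have h4 : b + θ * (√Λ - b) < √Λ := by nlinarith
    have h5 : 0 ≤ b + θ * (√Λ - b) := by positivity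
    nlinarith
  · nlinarith
  · have h6 : (θ * (√Λ - b)) ^ 2 = θ ^ 2 * Λ - θ ^ 2 * (2 * √Λ * b) + θ ^ 2 * b ^ 2 := by
      linear_combination θ ^ 2 * h2
    have h7 : θ ^ 2 ≤ 1 := by nlinarith
    have h8 : 0 ≤ 2 * √Λ * b := by positivity
    rw [h6]
    nlinarith [mul_nonneg (sq_nonneg θ) (sq_nonneg b)]

/-- pass from the Siegel coordinates back to the ball -/
lemma of_siegel {v : Cn 2 → EReal} {κ : ℝ}
    (h : ∀ w ζ0 : ℂ, ‖ζ0‖ ^ 2 < w.re → v (XX w ζ0) ≤ ((-κ * (w.re - ‖ζ0‖ ^ 2) : ℝ) : EReal))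
    {z : Cn 2} (hz : z ∈ B2) : v z ≤ ((κ * Om z : ℝ) : EReal) := by
  have h1 := h (om z) (ze z) (om_pos hz)
  rw [XX_om hz] at h1
  have e : κ * Om z = -κ * ((om z).re - ‖ze z‖ ^ 2) := by unfold Om; ring
  rw [e]; exact h1

theorem bound_phip {v : Cn 2 → EReal} (hv : IsPSH B2 v) (hv0 : ∀ z ∈ B2, v z ≤ 0) {C : ℝ}
    (hC : ∀ z ∈ B2, v z ≤ ((phip z + C : ℝ) : EReal)) {z : Cn 2} (hz : z ∈ B2) :
    v z ≤ ((Om z : ℝ) : EReal) := by
  have := of_siegel (κ := 1) (v := v) (fun w ζ0 hw => by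
    apply phragmen hv hv0 one_pos (C := C + ‖ζ0‖ ^ 2) _ hw
    intro w hw
    refine (hC _ (XX_mem hw)).trans ?_
    rw [EReal.coe_le_coe_iff]
    have h0 : 0 ≤ w.re := (sq_nonneg _).trans hw.le
    unfold phip
    rw [om_XX h0, ze_XX h0, Complex.sub_re]
    have := (abs_le.1 (abs_re_sq_le ζ0)).2
    linarith) hz
  rwa [one_mul] at this

theorem bound_phim {v : Cn 2 → EReal} (hv : IsPSH B2 v) (hv0 : ∀ z ∈ B2, v z ≤ 0) {C : ℝ}
    (hC : ∀ z ∈ B2, v z ≤ ((phim z + C : ℝ) : EReal)) {z : Cn 2} (hz : z ∈ B2) :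
    v z ≤ ((Om z : ℝ) : EReal) := by
  have := of_siegel (κ := 1) (v := v) (fun w ζ0 hw => by
    apply phragmen hv hv0 one_pos (C := C + ‖ζ0‖ ^ 2) _ hw
    intro w hw
    refine (hC _ (XX_mem hw)).trans ?_
    rw [EReal.coe_le_coe_iff]
    have h0 : 0 ≤ w.re := (sq_nonneg _).trans hw.le
    unfold phim
    rw [om_XX h0, ze_XX h0, Complex.add_re]
    have := (abs_le.1 (abs_re_sq_le ζ0)).1
    linarith) hz
  rwa [one_mul] at this

theorem bound_Om {v : Cn 2 → EReal} (hv : IsPSH B2 v) (hv0 : ∀ z ∈ B2, v z ≤ 0) {C : ℝ}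
    (hC : ∀ z ∈ B2, v z ≤ ((Om z + C : ℝ) : EReal)) {z : Cn 2} (hz : z ∈ B2) :
    v z ≤ ((Om z : ℝ) : EReal) := by
  have := of_siegel (κ := 1) (v := v) (fun w ζ0 hw => by
    apply phragmen hv hv0 one_pos (C := C + ‖ζ0‖ ^ 2) _ hw
    intro w hw
    refine (hC _ (XX_mem hw)).trans ?_
    rw [EReal.coe_le_coe_iff]
    have h0 : 0 ≤ w.re := (sq_nonneg _).trans hw.le
    unfold Om
    rw [om_XX h0, ze_XX h0]
    linarith) hz
  rwa [one_mul] at this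

/-- Everything below `min(φ, ψ) + C` is below `(3/2) Ω`. -/
theorem bound_min {v : Cn 2 → EReal} (hv : IsPSH B2 v) (hv0 : ∀ z ∈ B2, v z ≤ 0) {C : ℝ}
    (hC : ∀ z ∈ B2, v z ≤ ((min (phip z) (phim z) + C : ℝ) : EReal)) {z : Cn 2} (hz : z ∈ B2) :
    v z ≤ ((3 / 2 * Om z : ℝ) : EReal) := by
  refine of_siegel (κ := 3 / 2) (v := v) (fun w ζ0 hw => ?_) hz
  apply phragmen' hv hv0 (by norm_num) _ hw
  intro ε hε
  obtain ⟨θ, hθ0, hθ1, hθ⟩ := exists_theta hε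
  refine ⟨C + ‖ζ0‖ ^ 2 + 9 / (2 * ε) * ‖ζ0‖ ^ 2, fun w hw => ?_⟩
  obtain ⟨hr0, hr1, hr2, hr3⟩ := sqrt_room (norm_nonneg ζ0) hw hθ0 hθ1
  set r := θ * (√w.re - ‖ζ0‖) with hr
  have hw0 : 0 ≤ w.re := (sq_nonneg _).trans hw.le
  have key := horiz hv hr0 hr1 (G := fun t =>
    ((C + ‖ζ0‖ ^ 2 + 2 * r * ‖ζ0‖ - w.re - r ^ 2 / 2 : ℝ) : ℂ) - ((r ^ 2 / 2 : ℝ) : ℂ) * t ^ 4)
    (by fun_prop) (fun t ht => by
      have hm : ‖ζ0 + r * t‖ ^ 2 < w.re := by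
        have h1 : ‖ζ0 + r * t‖ ≤ ‖ζ0‖ + r := by
          refine (norm_add_le _ _).trans ?_
          rw [norm_mul, Complex.norm_real, Real.norm_eq_abs, abs_of_nonneg hr0, ht, mul_one]
        have h2 : ‖ζ0 + r * t‖ ^ 2 ≤ (‖ζ0‖ + r) ^ 2 := by gcongr
        linarith
      refine (hC _ (XX_mem hm)).trans ?_
      rw [EReal.coe_le_coe_iff]
      unfold phip phim
      rw [om_XX hw0, ze_XX hw0]
      set q : ℂ := (ζ0 + r * t) ^ 2 with hq
      have hqe : q.re = (ζ0 ^ 2 + 2 * r * ζ0 * t).re + r ^ 2 * (t ^ 2).re := by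
        have : q = (ζ0 ^ 2 + 2 * r * ζ0 * t) + ((r ^ 2 : ℝ) : ℂ) * t ^ 2 := by
          rw [hq]; push_cast; ring
        rw [this, Complex.add_re, Complex.re_ofReal_mul]
      have hsm : |(ζ0 ^ 2 + 2 * r * ζ0 * t).re| ≤ ‖ζ0‖ ^ 2 + 2 * r * ‖ζ0‖ := by
        refine (Complex.abs_re_le_norm _).trans ((norm_add_le _ _).trans ?_)
        rw [norm_pow, norm_mul, norm_mul, norm_mul, Complex.norm_real, Real.norm_eq_abs,
          abs_of_nonneg hr0, ht, mul_one]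
        simp
      have ht2 : (t ^ 2).re ^ 2 + (t ^ 2).im ^ 2 = 1 := by
        rw [← norm_sq_re_im, norm_pow, ht]; norm_num
      have ht4 : (t ^ 4).re = 2 * (t ^ 2).re ^ 2 - 1 := by
        have : t ^ 4 = t ^ 2 * t ^ 2 := by ring
        rw [this, Complex.mul_re]
        nlinarith
      have hcos : (t ^ 2).re ^ 2 ≤ |(t ^ 2).re| := by
        have h5 : |(t ^ 2).re| ≤ 1 := by
          rw [abs_le]; constructor <;> nlinarith [sq_nonneg (t ^ 2).im]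
        rw [← sq_abs]
        nlinarith [abs_nonneg (t ^ 2).re]
      have hmin : min (-(w - q).re) (-(w + q).re) = -w.re - |q.re| := by
        rw [Complex.sub_re, Complex.add_re]
        rcases le_total 0 q.re with h | h
        · rw [abs_of_nonneg h, min_eq_right (by linarith)]; ring
        · rw [abs_of_nonpos h, min_eq_left (by linarith)]; ring
      rw [hmin]
      have hge : r ^ 2 * |(t ^ 2).re| - (‖ζ0‖ ^ 2 + 2 * r * ‖ζ0‖) ≤ |q.re| := by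
        rw [hqe]
        have h6 := abs_sub_abs_le_abs_sub (r ^ 2 * (t ^ 2).re) (-(ζ0 ^ 2 + 2 * r * ζ0 * t).re)
        rw [abs_neg, abs_mul, abs_of_nonneg (sq_nonneg r)] at h6
        have e : r ^ 2 * (t ^ 2).re - -(ζ0 ^ 2 + 2 * r * ζ0 * t).re =
          (ζ0 ^ 2 + 2 * r * ζ0 * t).re + r ^ 2 * (t ^ 2).re := by ring
        rw [e] at h6
        linarith
      have h7 : r ^ 2 * (t ^ 2).re ^ 2 ≤ r ^ 2 * |(t ^ 2).re| :=
        mul_le_mul_of_nonneg_left hcos (sq_nonneg r)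
      rw [Complex.sub_re, Complex.ofReal_re, Complex.re_ofReal_mul, ht4]
      nlinarith)
  refine key.trans ?_
  rw [EReal.coe_le_coe_iff]
  simp only [ne_eq, OfNat.ofNat_ne_zero, not_false_eq_true, zero_pow, mul_zero, sub_zero,
    Complex.ofReal_re]
  have hs0 : 0 ≤ √w.re := Real.sqrt_nonneg _
  have hs2 : √w.re ^ 2 = w.re := Real.sq_sqrt hw0
  have h8 : 2 * r * ‖ζ0‖ ≤ 2 * √w.re * ‖ζ0‖ := by
    have := norm_nonneg ζ0
    nlinarith
  have h9 : 3 * √w.re * ‖ζ0‖ ≤ ε / 2 * w.re + 9 / (2 * ε) * ‖ζ0‖ ^ 2 := by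
    have h10 : 0 ≤ (ε * √w.re - 3 * ‖ζ0‖) ^ 2 / (2 * ε) := by positivity
    have h11 : (ε * √w.re - 3 * ‖ζ0‖) ^ 2 / (2 * ε) = ε / 2 * √w.re ^ 2 -
        3 * √w.re * ‖ζ0‖ + 9 / (2 * ε) * ‖ζ0‖ ^ 2 := by
      field_simp
      ring
    rw [h11, hs2] at h10
    linarith
  have h12 : (1 - ε) * w.re ≤ θ ^ 2 * w.re := mul_le_mul_of_nonneg_right hθ hw0
  nlinarith

/-- Everything below `-2 (Im ζ)² + C` is below `Ω`. -/
theorem bound_second {v : Cn 2 → EReal} (hv : IsPSH B2 v) (hv0 : ∀ z ∈ B2, v z ≤ 0) {C : ℝ}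
    (hC : ∀ z ∈ B2, v z ≤ ((phip z - Om z + C : ℝ) : EReal)) {z : Cn 2} (hz : z ∈ B2) :
    v z ≤ ((Om z : ℝ) : EReal) := by
  have := of_siegel (κ := 1) (v := v) (fun w ζ0 hw => ?_) hz
  · rwa [one_mul] at this
  apply phragmen' hv hv0 (by norm_num) _ hw
  intro ε hε
  obtain ⟨θ, hθ0, hθ1, hθ⟩ := exists_theta (half_pos hε)
  refine ⟨C + 2 / ε * ‖ζ0‖ ^ 2, fun w hw => ?_⟩
  obtain ⟨hr0, hr1, hr2, hr3⟩ := sqrt_room (norm_nonneg ζ0) hw hθ0 hθ1
  set r := θ * (√w.re - ‖ζ0‖) with hr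
  have hw0 : 0 ≤ w.re := (sq_nonneg _).trans hw.le
  have key := horiz hv hr0 hr1 (G := fun t =>
    ((C - ‖ζ0‖ ^ 2 - r ^ 2 : ℝ) : ℂ) - ((2 * r : ℝ) : ℂ) * (starRingEnd ℂ ζ0 * t) +
      (ζ0 + r * t) ^ 2)
    (by fun_prop) (fun t ht => by
      have hm : ‖ζ0 + r * t‖ ^ 2 < w.re := by
        have h1 : ‖ζ0 + r * t‖ ≤ ‖ζ0‖ + r := by
          refine (norm_add_le _ _).trans ?_
          rw [norm_mul, Complex.norm_real, Real.norm_eq_abs, abs_of_nonneg hr0, ht, mul_one]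
        have h2 : ‖ζ0 + r * t‖ ^ 2 ≤ (‖ζ0‖ + r) ^ 2 := by gcongr
        linarith
      refine (hC _ (XX_mem hm)).trans ?_
      rw [EReal.coe_le_coe_iff]
      unfold phip Om
      rw [om_XX hw0, ze_XX hw0, Complex.sub_re, Complex.add_re, Complex.sub_re,
        Complex.re_ofReal_mul, Complex.ofReal_re]
      have ht2 : t.re ^ 2 + t.im ^ 2 = 1 := by rw [← norm_sq_re_im, ht]; norm_num
      have e : ‖ζ0 + r * t‖ ^ 2 = ‖ζ0‖ ^ 2 + r ^ 2 + 2 * r * (starRingEnd ℂ ζ0 * t).re := by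
        rw [norm_sq_re_im, norm_sq_re_im]
        simp
        linear_combination r ^ 2 * ht2
      rw [e]
      linarith)
  refine key.trans ?_
  rw [EReal.coe_le_coe_iff]
  simp only [mul_zero, sub_zero, add_zero, Complex.add_re, Complex.ofReal_re]
  have h5 := (abs_le.1 (abs_re_sq_le ζ0)).2
  have hs0 : 0 ≤ √w.re := Real.sqrt_nonneg _
  have hs2 : √w.re ^ 2 = w.re := Real.sq_sqrt hw0
  have h9 : 2 * √w.re * ‖ζ0‖ ≤ ε / 2 * w.re + 2 / ε * ‖ζ0‖ ^ 2 := by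
    have h10 : 0 ≤ (ε * √w.re - 2 * ‖ζ0‖) ^ 2 / (2 * ε) := by positivity
    have h11 : (ε * √w.re - 2 * ‖ζ0‖) ^ 2 / (2 * ε) = ε / 2 * √w.re ^ 2 -
        2 * √w.re * ‖ζ0‖ + 2 / ε * ‖ζ0‖ ^ 2 := by
      field_simp
      ring
    rw [h11, hs2] at h10
    linarith
  have h12 : (1 - ε / 2) * w.re ≤ θ ^ 2 * w.re := mul_le_mul_of_nonneg_right hθ hw0
  nlinarith

end Q72.Res
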