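import Mathlib
import Pool.Agent.Q72.Res.Siegel

/-!
# Lacunary sums of peaking monomials on the ball of `ℂ²`
-/

set_option autoImplicit false

open Metric Set Filter Topology

namespace Q72.Res

open Q72.Psh

/-- locally uniform limits of psh functions are psh -/
theorem isPSH_of_unif {n : ℕ} {D : Set (Cn n)} {v : Cn n → ℝ} (hv : ContinuousOn v D)
    (h : ∀ K ⊆ D, IsCompact K → ∀ ε > 0, ∃ w : Cn n → ℝ,
      IsPSH D (fun z => ((w z : ℝ) : EReal)) ∧ ∀ y ∈ K, |w y - v y| ≤ ε) :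
    IsPSH D (fun z => ((v z : ℝ) : EReal)) := by
  refine ⟨usc_of_continuousOn hv, fun x _ => EReal.coe_ne_top _, ?_⟩
  intro φ hφ hm g hg hle
  beta_reduce
  rw [EReal.coe_le_coe_iff]
  apply le_of_forall_pos_le_add
  intro ε hε
  have hK : IsCompact (φ '' closedBall 0 1) :=
    (isCompact_closedBall _ _).image_of_continuousOn hφ.continuousOn
  obtain ⟨w, hw, hwv⟩ := h _ hm.image_subset hK (ε / 2) (half_pos hε)
  have h1 := hw.2.2 φ hφ hm (fun ζ => g ζ + ε / 2) (hg.add continuousOn_const) (fun ζ hζ => by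
    have h2 := hle ζ hζ
    have h3 := hwv _ (mem_image_of_mem φ (sphere_subset_closedBall hζ))
    beta_reduce at h2 ⊢
    rw [EReal.coe_le_coe_iff] at h2 ⊢
    have := (abs_le.1 h3).2
    linarith)
  beta_reduce at h1
  rw [EReal.coe_le_coe_iff] at h1
  have h4 : Real.circleAverage (fun ζ => g ζ + ε / 2) 0 1 = Real.circleAverage g 0 1 + ε / 2 := by
    have := Real.circleAverage_fun_add (f₁ := g) (f₂ := fun _ => ε / 2) (c := 0) (R := 1)
      (hg.circleIntegrable zero_le_one) (continuousOn_const.circleIntegrable zero_le_one)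
    rw [this, Real.circleAverage_const]
  rw [h4] at h1
  have h5 := hwv _ (mem_image_of_mem φ (mem_closedBall_self (x := (0 : ℂ)) zero_le_one))
  have := (abs_le.1 h5).1
  linarith

/-- the exponents and radii -/
structure Data where
  α : ℕ → ℝ
  β : ℕ → ℝ
  P : ℕ → ℕ
  Q : ℕ → ℕ
  hα : ∀ k, 1 / 2 ≤ α k
  hβ : ∀ k, 1 / 2 ≤ β k
  hαβ : ∀ k, α k ^ 2 + β k ^ 2 = 1
  hP : ∀ k, (P k : ℝ) = (P k + Q k : ℝ) * α k ^ 2
  hQ : ∀ k, (Q k : ℝ) = (P k + Q k : ℝ) * β k ^ 2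
  hM : ∀ k, k + 3 ≤ P k + Q k
  sep : ∀ j k, j ≠ k → ∀ x : ℝ,
    (1 / 2 : ℝ) ^ (j + 3) < Real.exp (-((P j + Q j : ℝ) * (α j - x) ^ 2 / 2)) →
    Real.exp (-((P k + Q k : ℝ) * (α k - x) ^ 2 / 2)) ≤ (1 / 2 : ℝ) ^ (k + 3)

lemma exists_data : Nonempty Data := by
  have key : ∀ k : ℕ, ∀ x : ℝ, 1 / (2 * (k + 4) * (k + 5)) ≤ |(1 / 2 + 1 / (k + 4) : ℝ) - x| →
      Real.exp (-(((4 * (k + 4) ^ 2 * (2 * (k + 5) ^ 2 * (k + 3)) : ℝ)) *
        ((1 / 2 + 1 / (k + 4) : ℝ) - x) ^ 2 / 2)) ≤ (1 / 2 : ℝ) ^ (k + 3) := by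
    intro k x hx
    have hk : (0 : ℝ) ≤ k := Nat.cast_nonneg k
    have h1 : (1 / (2 * (k + 4) * (k + 5)) : ℝ) ^ 2 ≤ ((1 / 2 + 1 / (k + 4) : ℝ) - x) ^ 2 := by
      rw [← sq_abs ((1 / 2 + 1 / (k + 4) : ℝ) - x)]
      gcongr
    have h2 : ((k + 3 : ℕ) : ℝ) ≤ ((4 * (k + 4) ^ 2 * (2 * (k + 5) ^ 2 * (k + 3)) : ℝ)) *
        ((1 / 2 + 1 / (k + 4) : ℝ) - x) ^ 2 / 2 := by
      have h3 : ((4 * (k + 4) ^ 2 * (2 * (k + 5) ^ 2 * (k + 3)) : ℝ)) *
          (1 / (2 * (k + 4) * (k + 5)) : ℝ) ^ 2 / 2 = k + 3 := by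
        field_simp
        ring
      push_cast
      refine h3.symm.le.trans ?_
      gcongr
    calc _ ≤ Real.exp (-((k + 3 : ℕ) : ℝ)) := Real.exp_le_exp.2 (by linarith)
      _ = (Real.exp (-1)) ^ (k + 3) := by rw [← Real.exp_nat_mul]; ring_nf
      _ ≤ (1 / 2 : ℝ) ^ (k + 3) := by
        gcongr
        rw [Real.exp_neg, ← one_div]
        apply one_div_le_one_div_of_le two_pos
        have := Real.add_one_le_exp (1 : ℝ)
        linarith
  have hb : ∀ k : ℕ, (1 / 2 : ℝ) ^ 2 ≤ 1 - (1 / 2 + 1 / (k + 4) : ℝ) ^ 2 := by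
    intro k
    have hk : (0 : ℝ) ≤ k := Nat.cast_nonneg k
    have h1 : (1 / (k + 4) : ℝ) ≤ 1 / 4 := by
      apply one_div_le_one_div_of_le (by norm_num); linarith
    have h2 : (0 : ℝ) ≤ 1 / (k + 4) := by positivity
    nlinarith
  refine ⟨{
    α := fun k => 1 / 2 + 1 / (k + 4)
    β := fun k => √(1 - (1 / 2 + 1 / (k + 4) : ℝ) ^ 2)
    P := fun k => (k + 6) ^ 2 * (2 * (k + 5) ^ 2 * (k + 3))
    Q := fun k => (k + 2) * (3 * k + 14) * (2 * (k + 5) ^ 2 * (k + 3))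
    hα := fun k => by
      have : (0 : ℝ) < 1 / ((k : ℝ) + 4) := by positivity
      linarith
    hβ := fun k => by
      apply Real.le_sqrt_of_sq_le
      exact hb k
    hαβ := fun k => by
      rw [Real.sq_sqrt ((sq_nonneg _).trans (hb k))]; ring
    hP := fun k => by
      push_cast
      field_simp
      ring
    hQ := fun k => by
      rw [Real.sq_sqrt ((sq_nonneg _).trans (hb k))]
      push_cast
      field_simp
      ring
    hM := fun k => by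
      have : 1 * (k + 3) ≤ (k + 6) ^ 2 * (2 * (k + 5) ^ 2) * (k + 3) := by
        apply Nat.mul_le_mul_right
        exact Nat.one_le_iff_ne_zero.2 (by positivity)
      nlinarith [Nat.zero_le ((k + 2) * (3 * k + 14) * (2 * (k + 5) ^ 2 * (k + 3)))]
    sep := ?_ }⟩
  have hMe : ∀ k : ℕ, ((((k + 6) ^ 2 * (2 * (k + 5) ^ 2 * (k + 3)) : ℕ) : ℝ) +
      (((k + 2) * (3 * k + 14) * (2 * (k + 5) ^ 2 * (k + 3)) : ℕ) : ℝ)) =
      4 * (k + 4) ^ 2 * (2 * (k + 5) ^ 2 * (k + 3)) := by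
    intro k; push_cast; ring
  have hsep : ∀ j k : ℕ, j < k → ∀ x : ℝ,
      |(1 / 2 + 1 / (j + 4) : ℝ) - x| < 1 / (2 * (j + 4) * (j + 5)) →
      |(1 / 2 + 1 / (k + 4) : ℝ) - x| < 1 / (2 * (k + 4) * (k + 5)) → False := by
    intro j k hjk x h1 h2
    have hjk' : (j : ℝ) + 1 ≤ k := by exact_mod_cast hjk
    have hj : (0 : ℝ) ≤ j := Nat.cast_nonneg j
    have h3 : (1 : ℝ) / (2 * (k + 4) * (k + 5)) ≤ 1 / (2 * (j + 4) * (j + 5)) := by
      apply one_div_le_one_div_of_le (by positivity)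
      gcongr <;> linarith
    have h4 : (1 : ℝ) / (k + 4) ≤ 1 / (j + 5) := by
      apply one_div_le_one_div_of_le (by positivity)
      linarith
    have h5 : (1 : ℝ) / (j + 4) - 1 / (j + 5) = 2 * (1 / (2 * (j + 4) * (j + 5))) := by
      field_simp
      ring
    have h6 := (abs_lt.1 h1).2
    have h7 := (abs_lt.1 h2).1
    linarith
  intro j k hjk x hj
  beta_reduce at hj ⊢
  rw [hMe] at hj ⊢
  apply key
  by_contra hc
  rw [not_le] at hc
  have hj' : |(1 / 2 + 1 / (j + 4) : ℝ) - x| < 1 / (2 * (j + 4) * (j + 5)) := by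
    by_contra hc'
    rw [not_lt] at hc'
    exact absurd (key j x hc') (not_le.2 hj)
  rcases lt_or_gt_of_ne hjk with h | h
  · exact hsep j k h x hj' hc
  · exact hsep k j h x hc hj'

end Q72.Res
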