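import Mathlib
import Pool.Agent.Q72.Res.Siegel

/-!
# The residual functions of `-Re (ω ∓ ζ²)` and of `-(Re ω - |ζ|²)` on the ball of `ℂ²`
-/

set_option autoImplicit false

open Metric Set Filter Topology

namespace Q72.Res

open Q72.Psh

lemma zero_mem_B2 : (0 : Cn 2) ∈ B2 := mem_ball_self one_pos

lemma om_zero : om 0 = 1 := by simp [om]
lemma ze_zero : ze 0 = 0 := by simp [ze]

/-- a real valued psh function `≤ 0` on the ball is in `PSH⁻` -/
lemma mem_PSHneg {v : Cn 2 → ℝ} (hv : IsPSH B2 (fun z => ((v z : ℝ) : EReal)))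
    (h0 : ∀ z ∈ B2, v z ≤ 0) : (fun z => ((v z : ℝ) : EReal)) ∈ PSHneg B2 := by
  refine ⟨hv, fun z hz => ?_, 0, zero_mem_B2, EReal.coe_ne_bot _⟩
  have := h0 z hz
  beta_reduce
  exact_mod_cast this

theorem isPSH_Om : IsPSH B2 (fun z => ((Om z : ℝ) : EReal)) := by
  apply isPSH_of_support isOpen_ball continuousOn_Om
  intro x hx ε hε
  refine ⟨fun y => -om y + 2 * (starRingEnd ℂ (ze x)) * ze y - ((‖ze x‖ ^ 2 : ℝ) : ℂ), ?_, ?_, ?_⟩
  · exact ((differentiableOn_om.neg).add (differentiableOn_ze.const_mul _)).sub_const _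
  · intro y hy
    unfold Om
    have e : ‖ze y - ze x‖ ^ 2 = ‖ze y‖ ^ 2 + ‖ze x‖ ^ 2 - 2 * (starRingEnd ℂ (ze x) * ze y).re := by
      rw [norm_sq_re_im, norm_sq_re_im, norm_sq_re_im]
      simp
      ring
    have h0 := sq_nonneg ‖ze y - ze x‖
    rw [Complex.sub_re, Complex.add_re, Complex.neg_re, Complex.ofReal_re, mul_assoc,
      Complex.mul_re (2 : ℂ)]
    simp only [Complex.re_ofNat, Complex.im_ofNat, zero_mul, sub_zero]
    linarith
  · unfold Om
    rw [Complex.sub_re, Complex.add_re, Complex.neg_re, Complex.ofReal_re, mul_assoc,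
      Complex.mul_re (2 : ℂ)]
    simp only [Complex.re_ofNat, Complex.im_ofNat, zero_mul, sub_zero]
    have e : (starRingEnd ℂ (ze x) * ze x).re = ‖ze x‖ ^ 2 := by
      rw [norm_sq_re_im]
      simp
      ring
    rw [e]
    linarith

theorem Om_mem : (fun z => ((Om z : ℝ) : EReal)) ∈ PSHneg B2 :=
  mem_PSHneg isPSH_Om (fun _ hz => (Om_neg hz).le)

theorem phip_mem : (fun z => ((phip z : ℝ) : EReal)) ∈ PSHneg B2 := by
  apply mem_PSHneg
  · have h := isPSH_re isOpen_ball (F := fun z => -(om z - ze z ^ 2))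
      (differentiableOn_om.sub (differentiableOn_ze.pow 2)).neg
    exact h
  · intro z hz
    exact phip_le.trans (Om_neg hz).le

theorem phim_mem : (fun z => ((phim z : ℝ) : EReal)) ∈ PSHneg B2 := by
  apply mem_PSHneg
  · have h := isPSH_re isOpen_ball (F := fun z => -(om z + ze z ^ 2))
      (differentiableOn_om.add (differentiableOn_ze.pow 2)).neg
    exact h
  · intro z hz
    exact phim_le.trans (Om_neg hz).le

/-- lower bound for the residual function of `-Re (ω + L²)`, `|L| = |ζ|` -/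
theorem Om_le_res {L : Cn 2 → ℂ} (hL : DifferentiableOn ℂ L B2) (hn : ∀ z, ‖L z‖ = ‖ze z‖)
    {φ : Cn 2 → EReal} (hφ : ∀ z ∈ B2, φ z = ((-(om z + L z ^ 2).re : ℝ) : EReal)) {x : Cn 2}
    (hx : x ∈ B2) : ((Om x : ℝ) : EReal) ≤ res B2 φ x := by
  have hid : ∀ z, (L z ^ 2).re = 2 * (L z).re ^ 2 - ‖ze z‖ ^ 2 := by
    intro z
    rw [← hn, norm_sq_re_im, sq, Complex.mul_re]
    ring
  have hlim : Tendsto (fun κ : ℝ => ((κ * Om x : ℝ) : EReal)) (𝓝[>] 1)
      (𝓝 ((1 * Om x : ℝ) : EReal)) := by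
    have hc : Continuous (fun κ : ℝ => ((κ * Om x : ℝ) : EReal)) :=
      continuous_coe_real_ereal.comp (by fun_prop)
    exact (hc.tendsto 1).mono_left nhdsWithin_le_nhds
  rw [one_mul] at hlim
  refine le_of_tendsto hlim (eventually_nhdsWithin_of_forall fun κ hκ => ?_)
  have hκ1 : 1 < κ := hκ
  have hκ0 : 0 < κ := by linarith
  obtain ⟨β, hβ⟩ : ∃ β : ℝ, β = 4 * κ * (L x).re := ⟨_, rfl⟩
  -- the competitor
  have hval : ∀ z : Cn 2, (-(κ : ℂ) * (om z + L z ^ 2) + (β : ℂ) * L z -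
      ((β ^ 2 / (8 * κ) : ℝ) : ℂ)).re = κ * Om z - 2 * κ * ((L z).re - β / (4 * κ)) ^ 2 := by
    intro z
    rw [Complex.sub_re, Complex.add_re, Complex.ofReal_re, Complex.re_ofReal_mul, neg_mul,
      Complex.neg_re, Complex.re_ofReal_mul, Complex.add_re, hid]
    unfold Om
    field_simp
    ring
  have hvP : (fun z => (((-(κ : ℂ) * (om z + L z ^ 2) + (β : ℂ) * L z -
      ((β ^ 2 / (8 * κ) : ℝ) : ℂ)).re : ℝ) : EReal)) ∈ PSHneg B2 := by
    apply mem_PSHneg
    · exact isPSH_re isOpen_ball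
        ((((differentiableOn_om.add (hL.pow 2)).const_mul _).add (hL.const_mul _)).sub_const _)
    · intro z hz
      rw [hval]
      have h1 := Om_neg hz
      have h2 : 0 ≤ 2 * κ * ((L z).re - β / (4 * κ)) ^ 2 := by positivity
      nlinarith
  have key := le_res (D := B2) (φ := φ) hvP ⟨β ^ 2 / (8 * (κ - 1)), fun y hy => ?_⟩ x
  · refine le_trans (le_of_eq ?_) key
    rw [hval, hβ]
    congr 1
    have : (L x).re - 4 * κ * (L x).re / (4 * κ) = 0 := by
      field_simp
      ring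
    rw [this]
    ring
  · rw [hφ y hy, ← EReal.coe_add, EReal.coe_le_coe_iff, hval, Complex.add_re, hid]
    have h1 := Om_neg hy
    have h3 : 0 < κ - 1 := by linarith
    have h4 : κ * Om y - 2 * κ * ((L y).re - β / (4 * κ)) ^ 2 =
        κ * Om y - 2 * κ * (L y).re ^ 2 + β * (L y).re - β ^ 2 / (8 * κ) := by
      field_simp
      ring
    have h5 : 0 ≤ β ^ 2 / (8 * κ) := by positivity
    have h6 : β * (L y).re ≤ 2 * (κ - 1) * (L y).re ^ 2 + β ^ 2 / (8 * (κ - 1)) := by
      have h7 : 0 ≤ 2 * (κ - 1) * ((L y).re - β / (4 * (κ - 1))) ^ 2 := by positivity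
      have h8 : 2 * (κ - 1) * ((L y).re - β / (4 * (κ - 1))) ^ 2 =
          2 * (κ - 1) * (L y).re ^ 2 - β * (L y).re + β ^ 2 / (8 * (κ - 1)) := by
        field_simp
        ring
      linarith
    rw [h4]
    unfold Om at h1 ⊢
    nlinarith

theorem res_phip {x : Cn 2} (hx : x ∈ B2) :
    res B2 (fun z => ((phip z : ℝ) : EReal)) x = ((Om x : ℝ) : EReal) := by
  apply le_antisymm
  · apply res_le isOpen_ball continuousOn_Om _ hx
    rintro v hv ⟨C, hC⟩ y hy
    exact bound_phip hv.1 hv.2.1 (C := C) (fun z hz => by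
      rw [EReal.coe_add]; exact hC z hz) hy
  · apply Om_le_res (L := fun z => -Complex.I * ze z) (differentiableOn_ze.const_mul _) _ _ hx
    · intro z; simp
    · intro z _
      unfold phip
      congr 2
      have : (-Complex.I * ze z) ^ 2 = -(ze z ^ 2) := by
        rw [mul_pow, neg_sq, Complex.I_sq]; ring
      rw [this, sub_eq_add_neg]

theorem res_phim {x : Cn 2} (hx : x ∈ B2) :
    res B2 (fun z => ((phim z : ℝ) : EReal)) x = ((Om x : ℝ) : EReal) := by
  apply le_antisymm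
  · apply res_le isOpen_ball continuousOn_Om _ hx
    rintro v hv ⟨C, hC⟩ y hy
    exact bound_phim hv.1 hv.2.1 (C := C) (fun z hz => by
      rw [EReal.coe_add]; exact hC z hz) hy
  · exact Om_le_res differentiableOn_ze (fun z => rfl) (fun z _ => rfl) hx

theorem res_Om {x : Cn 2} (hx : x ∈ B2) :
    res B2 (fun z => ((Om z : ℝ) : EReal)) x = ((Om x : ℝ) : EReal) := by
  apply le_antisymm
  · apply res_le isOpen_ball continuousOn_Om _ hx
    rintro v hv ⟨C, hC⟩ y hy
    exact bound_Om hv.1 hv.2.1 (C := C) (fun z hz => by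
      rw [EReal.coe_add]; exact hC z hz) hy
  · exact le_res Om_mem ⟨0, fun y _ => by simp⟩ x

end Q72.Res
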