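import Mathlib
import Pool.Agent.Q72.Res.Lacun
import Pool.Agent.Q72.Res.Lower

/-!
# The function `-2 - Re ∑ h_k`
-/

set_option autoImplicit false

open Metric Set Filter Topology

namespace Q72.Res

open Q72.Psh

/-- the peaking monomials -/
noncomputable def Data.f (d : Data) (k : ℕ) (z : Cn 2) : ℂ :=
  (z 0 / d.α k) ^ d.P k * (z 1 / d.β k) ^ d.Q k

noncomputable def rho (k : ℕ) : ℝ := 1 - 1 / (k + 2)

noncomputable def Data.h (d : Data) (k : ℕ) (z : Cn 2) : ℂ :=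
  2 * (rho k * d.f k z) / (1 - rho k * d.f k z)

noncomputable def Data.V (d : Data) (N : ℕ) (z : Cn 2) : ℝ := -2 - (∑' k, d.h (k + N) z).re

variable (d : Data)

lemma norm_f_le_exp (k : ℕ) (z : Cn 2) :
    ‖d.f k z‖ ≤ Real.exp ((d.P k + d.Q k : ℝ) * (d.α k * ‖z 0‖ + d.β k * ‖z 1‖ - 1)) := by
  have key : ∀ (x a : ℝ) (n : ℕ), 0 ≤ x → 0 < a → (x / a) ^ n ≤ Real.exp (n * (x / a - 1)) := by
    intro x a n hx ha
    rw [Real.exp_nat_mul]
    apply pow_le_pow_left₀ (by positivity)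
    have := Real.add_one_le_exp (x / a - 1)
    linarith
  have hα : 0 < d.α k := by have := d.hα k; linarith
  have hβ : 0 < d.β k := by have := d.hβ k; linarith
  have h1 := key ‖z 0‖ (d.α k) (d.P k) (norm_nonneg _) hα
  have h2 := key ‖z 1‖ (d.β k) (d.Q k) (norm_nonneg _) hβ
  have e : ‖d.f k z‖ = (‖z 0‖ / d.α k) ^ d.P k * (‖z 1‖ / d.β k) ^ d.Q k := by
    unfold Data.f
    rw [norm_mul, norm_pow, norm_pow, norm_div, norm_div, Complex.norm_real, Complex.norm_real,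
      Real.norm_eq_abs, Real.norm_eq_abs, abs_of_pos hα, abs_of_pos hβ]
  rw [e]
  calc _ ≤ Real.exp (d.P k * (‖z 0‖ / d.α k - 1)) * Real.exp (d.Q k * (‖z 1‖ / d.β k - 1)) := by
        gcongr
    _ = _ := by
        rw [← Real.exp_add]
        congr 1
        obtain ⟨M, hM⟩ : ∃ M : ℝ, M = d.P k + d.Q k := ⟨_, rfl⟩
        have hp := d.hP k
        have hq := d.hQ k
        rw [← hM] at hp hq ⊢
        rw [hp, hq]
        have h3 := d.hαβ k
        field_simp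
        linear_combination (-M) * h3

lemma norm_f_le_sep (k : ℕ) {z : Cn 2} (hz : z ∈ B2) :
    ‖d.f k z‖ ≤ Real.exp (-((d.P k + d.Q k : ℝ) * (d.α k - ‖z 0‖) ^ 2 / 2)) := by
  refine (norm_f_le_exp d k z).trans (Real.exp_le_exp.2 ?_)
  rw [mem_B2] at hz
  have h3 := d.hαβ k
  have h4 : d.α k * ‖z 0‖ + d.β k * ‖z 1‖ - 1 ≤ -((d.α k - ‖z 0‖) ^ 2 / 2) := by
    nlinarith [sq_nonneg (d.β k - ‖z 1‖)]
  have h5 : (0 : ℝ) ≤ d.P k + d.Q k := by positivity
  calc _ ≤ (d.P k + d.Q k : ℝ) * (-((d.α k - ‖z 0‖) ^ 2 / 2)) := by gcongr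
    _ = _ := by ring

lemma norm_f_le_r (k : ℕ) {z : Cn 2} {r : ℝ} (hr0 : 0 ≤ r) (hr1 : r < 1) (hz : ‖z‖ ≤ r) :
    ‖d.f k z‖ ≤ Real.exp (-(1 - r)) ^ (k + 3) := by
  refine (norm_f_le_exp d k z).trans ?_
  rw [← Real.exp_nat_mul]
  apply Real.exp_le_exp.2
  have h3 := d.hαβ k
  have h1 : ‖z 0‖ ^ 2 + ‖z 1‖ ^ 2 ≤ r ^ 2 := by
    rw [← norm_sq2]; gcongr
  have h4 : d.α k * ‖z 0‖ + d.β k * ‖z 1‖ ≤ r := by
    by_contra hc
    rw [not_le] at hc
    have h5 : r ^ 2 < (d.α k * ‖z 0‖ + d.β k * ‖z 1‖) ^ 2 := by gcongr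
    have h6 : (d.α k * ‖z 0‖ + d.β k * ‖z 1‖) ^ 2 + (d.α k * ‖z 1‖ - d.β k * ‖z 0‖) ^ 2 =
        ‖z 0‖ ^ 2 + ‖z 1‖ ^ 2 := by
      linear_combination (‖z 0‖ ^ 2 + ‖z 1‖ ^ 2) * h3
    nlinarith [sq_nonneg (d.α k * ‖z 1‖ - d.β k * ‖z 0‖)]
  have h7 : ((k + 3 : ℕ) : ℝ) ≤ d.P k + d.Q k := by exact_mod_cast d.hM k
  nlinarith

lemma rho_pos (k : ℕ) : 0 < rho k := by
  unfold rho
  have h : (1 : ℝ) / (k + 2) ≤ 1 / 2 := by
    apply one_div_le_one_div_of_le two_pos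
    have : (0 : ℝ) ≤ k := Nat.cast_nonneg k
    linarith
  linarith

lemma rho_lt (k : ℕ) : rho k < 1 := by
  unfold rho
  have : (0 : ℝ) < 1 / (k + 2) := by positivity
  linarith

lemma norm_f_le_one (k : ℕ) {z : Cn 2} (hz : z ∈ B2) : ‖d.f k z‖ ≤ 1 := by
  refine (norm_f_le_sep d k hz).trans ?_
  rw [← Real.exp_zero]
  apply Real.exp_le_exp.2
  have : (0 : ℝ) ≤ (d.P k + d.Q k : ℝ) * (d.α k - ‖z 0‖) ^ 2 / 2 := by positivity
  linarith

lemma norm_rho_f (k : ℕ) (z : Cn 2) : ‖(rho k : ℂ) * d.f k z‖ = rho k * ‖d.f k z‖ := by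
  rw [norm_mul, Complex.norm_real, Real.norm_eq_abs, abs_of_pos (rho_pos k)]

lemma norm_rho_f_lt (k : ℕ) {z : Cn 2} (hz : z ∈ B2) : ‖(rho k : ℂ) * d.f k z‖ < 1 := by
  rw [norm_rho_f]
  have h1 := norm_f_le_one d k hz
  have h2 := rho_lt k
  have h3 := rho_pos k
  nlinarith [norm_nonneg (d.f k z)]

lemma one_sub_rho_f_ne (k : ℕ) {z : Cn 2} (hz : z ∈ B2) : (1 : ℂ) - rho k * d.f k z ≠ 0 := by
  intro h
  have h1 : (rho k : ℂ) * d.f k z = 1 := by linear_combination -h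
  have h2 := norm_rho_f_lt d k hz
  rw [h1, norm_one] at h2
  exact lt_irrefl _ h2

lemma one_add_h (k : ℕ) {z : Cn 2} (hz : z ∈ B2) :
    1 + d.h k z = (1 + rho k * d.f k z) / (1 - rho k * d.f k z) := by
  unfold Data.h
  have := one_sub_rho_f_ne d k hz
  field_simp
  ring

lemma re_h_gt (k : ℕ) {z : Cn 2} (hz : z ∈ B2) : -1 < (d.h k z).re := by
  have h1 := cayley_re_pos (norm_rho_f_lt d k hz)
  rw [← one_add_h d k hz, Complex.add_re, Complex.one_re] at h1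
  linarith

lemma norm_h_le (k : ℕ) {z : Cn 2} {q : ℝ} (hq1 : q < 1) (hf : ‖d.f k z‖ ≤ q) :
    ‖d.h k z‖ ≤ 2 * q / (1 - q) := by
  unfold Data.h
  rw [norm_div, norm_mul, norm_rho_f, Complex.norm_ofNat]
  have h0 := norm_nonneg (d.f k z)
  have h1 := rho_lt k
  have h2 := rho_pos k
  have h3 : rho k * ‖d.f k z‖ ≤ q := by nlinarith
  have h4 : 1 - q ≤ ‖(1 : ℂ) - rho k * d.f k z‖ := by
    have := norm_sub_norm_le (1 : ℂ) (rho k * d.f k z)
    rw [norm_one, norm_rho_f] at this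
    linarith
  apply div_le_div₀ (by linarith) (by linarith) (by linarith) h4

lemma norm_h_le' (k : ℕ) {z : Cn 2} (hz : z ∈ B2) : ‖d.h k z‖ ≤ 2 / (1 - rho k) := by
  unfold Data.h
  rw [norm_div, norm_mul, norm_rho_f, Complex.norm_ofNat]
  have h0 := norm_nonneg (d.f k z)
  have h1 := rho_lt k
  have h2 := rho_pos k
  have h5 := norm_f_le_one d k hz
  have h3 : rho k * ‖d.f k z‖ ≤ rho k := by nlinarith
  have h4 : 1 - rho k ≤ ‖(1 : ℂ) - rho k * d.f k z‖ := by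
    have := norm_sub_norm_le (1 : ℂ) (rho k * d.f k z)
    rw [norm_one, norm_rho_f] at this
    linarith
  apply div_le_div₀ (by norm_num) (by linarith) (by linarith) h4

lemma exp_lt_one' {r : ℝ} (hr1 : r < 1) : Real.exp (-(1 - r)) < 1 := by
  rw [Real.exp_lt_one_iff]; linarith

/-- locally uniform summable bound -/
lemma norm_h_le_geom (N k : ℕ) {z : Cn 2} {r : ℝ} (hr0 : 0 ≤ r) (hr1 : r < 1) (hz : ‖z‖ ≤ r) :
    ‖d.h (k + N) z‖ ≤ 2 / (1 - Real.exp (-(1 - r))) * Real.exp (-(1 - r)) ^ k := by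
  obtain ⟨q, hq⟩ : ∃ q, q = Real.exp (-(1 - r)) := ⟨_, rfl⟩
  have hq0 : 0 < q := by rw [hq]; exact Real.exp_pos _
  have hq1 : q < 1 := by rw [hq]; exact exp_lt_one' hr1
  have h1 := norm_f_le_r d (k + N) hr0 hr1 hz
  rw [← hq] at h1 ⊢
  have h2 : q ^ (k + N + 3) ≤ q ^ k := pow_le_pow_of_le_one hq0.le hq1.le (by omega)
  have h3 : q ^ (k + N + 3) ≤ q := by
    calc q ^ (k + N + 3) ≤ q ^ 1 := pow_le_pow_of_le_one hq0.le hq1.le (by omega)
      _ = q := pow_one q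
  have h4 := norm_h_le d (k + N) (lt_of_le_of_lt h3 hq1) h1
  refine h4.trans ?_
  rw [div_mul_eq_mul_div]
  apply div_le_div₀ (by positivity) (by linarith) (by linarith) (by linarith)

lemma summable_geom {r : ℝ} (hr1 : r < 1) :
    Summable (fun k : ℕ => 2 / (1 - Real.exp (-(1 - r))) * Real.exp (-(1 - r)) ^ k) :=
  (summable_geometric_of_lt_one (Real.exp_pos _).le (exp_lt_one' hr1)).mul_left _

lemma summable_h (N : ℕ) {z : Cn 2} (hz : z ∈ B2) : Summable (fun k => d.h (k + N) z) := by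
  have h1 : ‖z‖ < 1 := by simpa using hz
  exact Summable.of_norm_bounded (summable_geom h1)
    (fun k => norm_h_le_geom d N k (norm_nonneg z) h1 le_rfl)

lemma differentiable_f (k : ℕ) : Differentiable ℂ (d.f k) := by
  intro z
  have h0 := differentiableAt_coord 0 z
  have h1 := differentiableAt_coord 1 z
  have h2 : DifferentiableAt ℂ (fun z : Cn 2 => z 0 * (d.α k : ℂ)⁻¹) z := h0.mul_const _
  have h3 : DifferentiableAt ℂ (fun z : Cn 2 => z 1 * (d.β k : ℂ)⁻¹) z := h1.mul_const _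
  have h4 : DifferentiableAt ℂ (fun z : Cn 2 => (z 0 * (d.α k : ℂ)⁻¹) ^ d.P k *
    (z 1 * (d.β k : ℂ)⁻¹) ^ d.Q k) z := (h2.pow _).mul (h3.pow _)
  exact h4

lemma differentiableOn_h (k : ℕ) : DifferentiableOn ℂ (d.h k) B2 := by
  intro z hz
  have h0 := differentiable_f d k z
  have h1 : DifferentiableAt ℂ (fun z : Cn 2 => 2 * (rho k * d.f k z)) z :=
    (h0.const_mul _).const_mul _
  have h2 : DifferentiableAt ℂ (fun z : Cn 2 => 1 - rho k * d.f k z) z :=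
    (h0.const_mul _).const_sub _
  exact (diff_div h1 h2 (one_sub_rho_f_ne d k hz)).differentiableWithinAt

lemma exists_r {K : Set (Cn 2)} (hK : K ⊆ B2) (hc : IsCompact K) :
    ∃ r : ℝ, 0 ≤ r ∧ r < 1 ∧ ∀ y ∈ K, ‖y‖ ≤ r := by
  rcases K.eq_empty_or_nonempty with h | h
  · exact ⟨0, le_rfl, one_pos, by simp [h]⟩
  · obtain ⟨x, hx, hmax⟩ := hc.exists_isMaxOn h continuous_norm.continuousOn
    exact ⟨‖x‖, norm_nonneg _, by simpa using hK hx, fun y hy => hmax hy⟩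

lemma unif (N : ℕ) {r : ℝ} (hr0 : 0 ≤ r) (hr1 : r < 1) :
    TendstoUniformlyOn (fun (n : ℕ) (z : Cn 2) => ∑ k ∈ Finset.range n, d.h (k + N) z)
      (fun z => ∑' k, d.h (k + N) z) atTop (closedBall 0 r) :=
  tendstoUniformlyOn_tsum_nat (summable_geom hr1) (fun k z hz =>
    norm_h_le_geom d N k hr0 hr1 (by simpa using hz))

lemma continuousOn_V (N : ℕ) : ContinuousOn (d.V N) B2 := by
  unfold Data.V
  apply continuousOn_const.sub
  apply Complex.continuous_re.comp_continuousOn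
  intro z hz
  have h1 : ‖z‖ < 1 := by simpa using hz
  obtain ⟨r, hzr, hr1⟩ := exists_between h1
  have hr0 : 0 ≤ r := (norm_nonneg z).trans hzr.le
  have h2 : ContinuousOn (fun z => ∑' k, d.h (k + N) z) (closedBall 0 r) := by
    apply (unif d N hr0 hr1).continuousOn
    apply Frequently.of_forall
    intro n
    apply continuousOn_finsetSum
    intro k _
    exact (differentiableOn_h d (k + N)).continuousOn.mono (closedBall_subset_ball hr1)
  have h3 : closedBall (0 : Cn 2) r ∈ 𝓝 z :=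
    mem_of_superset (isOpen_ball.mem_nhds (by simpa using hzr)) ball_subset_closedBall
  exact (h2.continuousAt h3).continuousWithinAt

theorem isPSH_V (N : ℕ) : IsPSH B2 (fun z => ((d.V N z : ℝ) : EReal)) := by
  apply isPSH_of_unif (continuousOn_V d N)
  intro K hK hc ε hε
  obtain ⟨r, hr0, hr1, hr⟩ := exists_r hK hc
  obtain ⟨n, hn⟩ := (tendstoUniformlyOn_iff.1 (unif d N hr0 hr1) ε hε).exists
  refine ⟨fun z => (-2 - ∑ k ∈ Finset.range n, d.h (k + N) z).re, ?_, ?_⟩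
  · apply isPSH_re isOpen_ball
    apply DifferentiableOn.const_sub
    apply DifferentiableOn.fun_sum
    intro k _
    exact differentiableOn_h d (k + N)
  · intro y hy
    have h1 := hn y (by simpa using hr y hy)
    rw [dist_eq_norm] at h1
    unfold Data.V
    have e : (-2 - ∑ k ∈ Finset.range n, d.h (k + N) y).re - (-2 - (∑' k, d.h (k + N) y).re) =
        ((∑' k, d.h (k + N) y) - ∑ k ∈ Finset.range n, d.h (k + N) y).re := by
      rw [Complex.sub_re, Complex.sub_re]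
      simp
    rw [e]
    exact (Complex.abs_re_le_norm _).trans h1.le

/-- at most one index is exceptional at a point -/
lemma small_of {N k0 : ℕ} {z : Cn 2} (hz : z ∈ B2)
    (hk0 : (1 / 2 : ℝ) ^ (k0 + N + 3) <
      Real.exp (-((d.P (k0 + N) + d.Q (k0 + N) : ℝ) * (d.α (k0 + N) - ‖z 0‖) ^ 2 / 2))) :
    ∀ k, k ≠ k0 → ‖d.h (k + N) z‖ ≤ (1 / 2 : ℝ) ^ (k + 1) := by
  intro k hk
  have h1 := d.sep (k0 + N) (k + N) (by omega) ‖z 0‖ hk0
  have h2 := (norm_f_le_sep d (k + N) hz).trans h1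
  have h3 : (1 / 2 : ℝ) ^ (k + N + 3) ≤ 1 / 2 := by
    calc (1 / 2 : ℝ) ^ (k + N + 3) ≤ (1 / 2) ^ 1 :=
          pow_le_pow_of_le_one (by norm_num) (by norm_num) (by omega)
      _ = 1 / 2 := pow_one _
  refine (norm_h_le d (k + N) (by linarith) h2).trans ?_
  have h4 : (0 : ℝ) < (1 / 2) ^ (k + N + 3) := by positivity
  have h5 : 2 * (1 / 2 : ℝ) ^ (k + N + 3) / (1 - (1 / 2 : ℝ) ^ (k + N + 3)) ≤
      4 * (1 / 2 : ℝ) ^ (k + N + 3) := by
    rw [div_le_iff₀ (by linarith)]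
    nlinarith
  refine h5.trans ?_
  have h6 : 4 * (1 / 2 : ℝ) ^ (k + N + 3) = (1 / 2) ^ (k + N + 1) := by
    rw [pow_succ _ (k + N + 2), pow_succ _ (k + N + 1)]; ring
  rw [h6]
  exact pow_le_pow_of_le_one (by norm_num) (by norm_num) (by omega)

lemma exists_small (N : ℕ) {z : Cn 2} (hz : z ∈ B2) :
    ∃ k0, ∀ k, k ≠ k0 → ‖d.h (k + N) z‖ ≤ (1 / 2 : ℝ) ^ (k + 1) := by
  by_cases hex : ∃ k0, (1 / 2 : ℝ) ^ (k0 + N + 3) <
      Real.exp (-((d.P (k0 + N) + d.Q (k0 + N) : ℝ) * (d.α (k0 + N) - ‖z 0‖) ^ 2 / 2))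
  · obtain ⟨k0, hk0⟩ := hex
    exact ⟨k0, small_of d hz hk0⟩
  · push Not at hex
    refine ⟨0, fun k _ => ?_⟩
    have h2 := (norm_f_le_sep d (k + N) hz).trans (hex k)
    have h3 : (1 / 2 : ℝ) ^ (k + N + 3) ≤ 1 / 2 := by
      calc (1 / 2 : ℝ) ^ (k + N + 3) ≤ (1 / 2) ^ 1 :=
            pow_le_pow_of_le_one (by norm_num) (by norm_num) (by omega)
        _ = 1 / 2 := pow_one _
    refine (norm_h_le d (k + N) (by linarith) h2).trans ?_
    have h4 : (0 : ℝ) < (1 / 2) ^ (k + N + 3) := by positivity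
    have h5 : 2 * (1 / 2 : ℝ) ^ (k + N + 3) / (1 - (1 / 2 : ℝ) ^ (k + N + 3)) ≤
        4 * (1 / 2 : ℝ) ^ (k + N + 3) := by
      rw [div_le_iff₀ (by linarith)]
      nlinarith
    refine h5.trans ?_
    have h6 : 4 * (1 / 2 : ℝ) ^ (k + N + 3) = (1 / 2) ^ (k + N + 1) := by
      rw [pow_succ _ (k + N + 2), pow_succ _ (k + N + 1)]; ring
    rw [h6]
    exact pow_le_pow_of_le_one (by norm_num) (by norm_num) (by omega)

lemma norm_tsum_sub {a : ℕ → ℂ} (ha : Summable a) {k0 : ℕ}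
    (h : ∀ k, k ≠ k0 → ‖a k‖ ≤ (1 / 2 : ℝ) ^ (k + 1)) : ‖∑' k, a k - a k0‖ ≤ 1 := by
  rw [ha.tsum_eq_add_tsum_ite k0, add_sub_cancel_left]
  have hs : HasSum (fun k : ℕ => (1 / 2 : ℝ) ^ (k + 1)) 1 := by
    have h2 : HasSum (fun k : ℕ => (1 / 2 : ℝ) ^ k * (1 / 2)) (2 * (1 / 2)) :=
      hasSum_geometric_two.mul_right _
    rw [show (2 : ℝ) * (1 / 2) = 1 by norm_num] at h2
    simpa only [pow_succ] using h2
  apply tsum_of_norm_bounded hs
  intro k
  split_ifs with hk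
  · rw [norm_zero]; positivity
  · exact h k hk

/-- upper bound with an exceptional index -/
lemma V_le_of {N k0 : ℕ} {z : Cn 2} (hz : z ∈ B2)
    (hk0 : ∀ k, k ≠ k0 → ‖d.h (k + N) z‖ ≤ (1 / 2 : ℝ) ^ (k + 1)) :
    d.V N z ≤ -(1 + d.h (k0 + N) z).re := by
  have h1 := norm_tsum_sub (summable_h d N hz) hk0
  have h2 := (abs_le.1 ((Complex.abs_re_le_norm _).trans h1)).1
  unfold Data.V
  rw [Complex.sub_re] at h2
  rw [Complex.add_re, Complex.one_re]
  linarith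

lemma V_nonpos (N : ℕ) {z : Cn 2} (hz : z ∈ B2) : d.V N z ≤ 0 := by
  obtain ⟨k0, hk0⟩ := exists_small d N hz
  refine (V_le_of d hz hk0).trans ?_
  have := re_h_gt d (k0 + N) hz
  rw [Complex.add_re, Complex.one_re]
  linarith

theorem V_mem (N : ℕ) : (fun z => ((d.V N z : ℝ) : EReal)) ∈ PSHneg B2 :=
  mem_PSHneg (isPSH_V d N) (fun _ hz => V_nonpos d N hz)

lemma V_le_V (N : ℕ) {z : Cn 2} (hz : z ∈ B2) :
    d.V N z ≤ d.V 0 z + ∑ k ∈ Finset.range N, 2 / (1 - rho k) := by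
  have h1 := (summable_h d 0 hz).sum_add_tsum_nat_add N
  simp only [add_zero] at h1
  unfold Data.V
  simp only [add_zero]
  rw [← h1, Complex.add_re]
  have h2 : (∑ k ∈ Finset.range N, d.h k z).re ≤ ∑ k ∈ Finset.range N, 2 / (1 - rho k) := by
    refine (Complex.re_le_norm _).trans ((norm_sum_le _ _).trans ?_)
    exact Finset.sum_le_sum (fun k _ => norm_h_le' d k hz)
  linarith

lemma V_tendsto {z : Cn 2} (hz : z ∈ B2) : Tendsto (fun N => d.V N z) atTop (𝓝 (-2)) := by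
  have h1 := tendsto_sum_nat_add (fun k => d.h k z)
  have h2 : Tendsto (fun N => -2 - (∑' k, d.h (k + N) z).re) atTop (𝓝 (-2 - (0 : ℂ).re)) :=
    ((Complex.continuous_re.tendsto _).comp h1).const_sub (-2)
  simpa [Data.V] using h2

theorem neg_two_le_res {z : Cn 2} (hz : z ∈ B2) :
    ((-2 : ℝ) : EReal) ≤ res B2 (fun z => ((d.V 0 z : ℝ) : EReal)) z := by
  have h1 : Tendsto (fun N => ((d.V N z : ℝ) : EReal)) atTop (𝓝 ((-2 : ℝ) : EReal)) :=
    (continuous_coe_real_ereal.tendsto _).comp (V_tendsto d hz)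
  refine le_of_tendsto h1 (Eventually.of_forall fun N => ?_)
  refine le_res (D := B2) (V_mem d N) ⟨∑ k ∈ Finset.range N, 2 / (1 - rho k), fun y hy => ?_⟩ z
  beta_reduce
  rw [← EReal.coe_add, EReal.coe_le_coe_iff]
  exact V_le_V d N hy

lemma isPSH_const (c : ℝ) : IsPSH B2 (fun _ => ((c : ℝ) : EReal)) := by
  have := isPSH_re (D := B2) isOpen_ball (F := fun _ => (c : ℂ)) (differentiableOn_const _)
  simpa using this

theorem res_res {z : Cn 2} (hz : z ∈ B2) :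
    res B2 (res B2 (fun z => ((d.V 0 z : ℝ) : EReal))) z = 0 := by
  apply le_antisymm
  · have := res_le (D := B2) (φ := res B2 (fun z => ((d.V 0 z : ℝ) : EReal))) (g := fun _ => 0)
      isOpen_ball continuousOn_const (fun v hv _ x hx => by
        have := hv.2.1 x hx
        simpa using this) hz
    simpa using this
  · have h0 : (fun _ => ((0 : ℝ) : EReal)) ∈ PSHneg B2 :=
      mem_PSHneg (v := fun _ => 0) (isPSH_const 0) (fun _ _ => le_rfl)
    have := le_res (D := B2) (φ := res B2 (fun z => ((d.V 0 z : ℝ) : EReal))) h0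
      ⟨2, fun y hy => ?_⟩ z
    · simpa using this
    · have h1 := neg_two_le_res d hy
      have h2 : ((-2 : ℝ) : EReal) + ((2 : ℝ) : EReal) ≤
          res B2 (fun z => ((d.V 0 z : ℝ) : EReal)) y + ((2 : ℝ) : EReal) := by gcongr
      refine le_trans (le_of_eq ?_) h2
      rw [← EReal.coe_add]
      norm_num

end Q72.Res
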