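import Mathlib
import Pool.Agent.Q72.Res.Lacun2

/-!
# Upper bound for the residual function near the origin
-/

set_option autoImplicit false

open Metric Set Filter Topology

namespace Q72.Res

open Q72.Psh

/-- disc automorphism with `0 ↦ a` -/
noncomputable def mob (a t : ℂ) : ℂ := (t + a) / (1 + starRingEnd ℂ a * t)

lemma mob_zero (a : ℂ) : mob a 0 = a := by simp [mob]

lemma mob_den {a t : ℂ} (ha : ‖a‖ < 1) (ht : ‖t‖ ≤ 1) : 1 + starRingEnd ℂ a * t ≠ 0 := by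
  intro h
  have h1 : starRingEnd ℂ a * t = -1 := by linear_combination h
  have h2 := congrArg norm h1
  rw [norm_mul, RCLike.norm_conj, norm_neg, norm_one] at h2
  nlinarith [norm_nonneg a, norm_nonneg t]

lemma mob_id (a t : ℂ) : ‖1 + starRingEnd ℂ a * t‖ ^ 2 - ‖t + a‖ ^ 2 =
    (1 - ‖a‖ ^ 2) * (1 - ‖t‖ ^ 2) := by
  rw [norm_sq_re_im, norm_sq_re_im, norm_sq_re_im, norm_sq_re_im]
  simp
  ring

lemma norm_mob_le {a t : ℂ} (ha : ‖a‖ < 1) (ht : ‖t‖ ≤ 1) : ‖mob a t‖ ≤ 1 := by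
  unfold mob
  rw [norm_div, div_le_one (norm_pos_iff.2 (mob_den ha ht))]
  have h1 := mob_id a t
  have h2 : 0 ≤ (1 - ‖a‖ ^ 2) * (1 - ‖t‖ ^ 2) := by
    apply mul_nonneg <;> nlinarith [norm_nonneg a, norm_nonneg t]
  exact (sq_le_sq₀ (norm_nonneg _) (norm_nonneg _)).1 (by linarith)

lemma norm_mob_eq {a t : ℂ} (ha : ‖a‖ < 1) (ht : ‖t‖ = 1) : ‖mob a t‖ = 1 := by
  unfold mob
  rw [norm_div, div_eq_one_iff_eq (norm_ne_zero_iff.2 (mob_den ha ht.le))]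
  have h1 := mob_id a t
  rw [ht] at h1
  have h2 : ‖t + a‖ ^ 2 = ‖1 + starRingEnd ℂ a * t‖ ^ 2 := by linarith
  exact (sq_eq_sq₀ (norm_nonneg _) (norm_nonneg _)).1 h2

lemma analytic_mob {a : ℂ} (ha : ‖a‖ < 1) : AnalyticOnNhd ℂ (mob a) (closedBall 0 1) := by
  intro t ht
  exact AnalyticAt.div (f := fun t : ℂ => t + a) (g := fun t : ℂ => 1 + starRingEnd ℂ a * t)
    (by fun_prop) (by fun_prop) (mob_den ha (by simpa using ht))

lemma cayley_small {u : ℂ} (hu : ‖u‖ ≤ 1 / 8) :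
    7 / 9 ≤ ((1 + u) / (1 - u)).re ∧ ‖(1 + u) / (1 - u)‖ ≤ 9 / 7 := by
  have h1 : 7 / 8 ≤ ‖1 - u‖ := by
    have := norm_sub_norm_le (1 : ℂ) u
    rw [norm_one] at this
    linarith
  have h2 : ‖1 - u‖ ≤ 9 / 8 := by
    have := norm_sub_le (1 : ℂ) u
    rw [norm_one] at this
    linarith
  have h3 : ‖1 + u‖ ≤ 9 / 8 := by
    have := norm_add_le (1 : ℂ) u
    rw [norm_one] at this
    linarith
  constructor
  · rw [Complex.div_re, Complex.normSq_eq_norm_sq, ← add_div, le_div_iff₀ (by positivity)]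
    have h4 := norm_sq_re_im u
    have h5 : ‖u‖ ^ 2 ≤ (1 / 8) ^ 2 := by gcongr
    have h6 : ‖1 - u‖ ^ 2 ≤ (9 / 8) ^ 2 := by gcongr
    simp
    nlinarith
  · rw [norm_div, div_le_iff₀ (by linarith)]
    linarith

variable (d : Data)

lemma rho_tendsto : Tendsto rho atTop (𝓝 1) := by
  have h1 : Tendsto (fun k : ℕ => (1 : ℝ) / ((k : ℝ) + 2)) atTop (𝓝 0) := by
    have := (tendsto_one_div_add_atTop_nhds_zero_nat (𝕜 := ℝ)).comp (tendsto_add_atTop_nat 1)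
    refine this.congr fun k => ?_
    simp only [Function.comp_apply]
    push_cast
    ring_nf
  have := h1.const_sub 1
  rw [sub_zero] at this
  exact this

theorem upper {v : Cn 2 → EReal} (hv : v ∈ PSHneg B2) {C : ℝ}
    (hC : ∀ y ∈ B2, v y ≤ ((d.V 0 y : ℝ) : EReal) + (C : EReal)) {x : Cn 2} (hx : ‖x‖ < 1 / 8) :
    v x ≤ ((-(1 / 2) : ℝ) : EReal) := by
  obtain ⟨A, hA⟩ : ∃ A : ℝ, A = 4 * (max C 0 + 1) := ⟨_, rfl⟩
  have hA0 : 0 < A := by rw [hA]; positivity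
  have hCA : C ≤ A / 4 := by rw [hA]; have := le_max_left C 0; linarith
  obtain ⟨B, hB⟩ : ∃ B : ℝ, B = 16 * A := ⟨_, rfl⟩
  have hB0 : 0 < B := by rw [hB]; positivity
  obtain ⟨ρ0, hρ00, hρ01, hρ0B, hρ0ε⟩ := choose_rho one_pos one_pos hA0 hB0
    (by norm_num : (0 : ℝ) < 1 / 8)
  obtain ⟨k, hk⟩ := (rho_tendsto.eventually (lt_mem_nhds hρ01)).exists
  -- choice of the radius
  obtain ⟨M, hM⟩ : ∃ M : ℕ, M = d.P k + d.Q k := ⟨_, rfl⟩
  have hM3 : 3 ≤ M := by have := d.hM k; omega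
  have hlim1 : Tendsto (fun r : ℝ => rho k * r ^ M) (𝓝[<] 1) (𝓝 (rho k * 1 ^ M)) :=
    (Continuous.tendsto (by fun_prop) 1).mono_left nhdsWithin_le_nhds
  have hlim2 : Tendsto (fun r : ℝ => r ^ M) (𝓝[<] 1) (𝓝 (1 ^ M)) :=
    (Continuous.tendsto (by fun_prop) 1).mono_left nhdsWithin_le_nhds
  have hlim3 : Tendsto (fun r : ℝ => r) (𝓝[<] 1) (𝓝 1) := tendsto_id.mono_left nhdsWithin_le_nhds
  rw [one_pow, mul_one] at hlim1
  rw [one_pow] at hlim2
  obtain ⟨r, ⟨⟨hr1, hr2⟩, hr3⟩, hr4⟩ :=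
    ((((hlim1.eventually (lt_mem_nhds hk)).and (hlim2.eventually (lt_mem_nhds
      (by norm_num : (1 / 2 : ℝ) < 1)))).and (hlim3.eventually (lt_mem_nhds
      (by norm_num : (1 / 2 : ℝ) < 1)))).and self_mem_nhdsWithin).exists
  beta_reduce at hr3
  have hr5 : r < 1 := hr4
  have hr0 : 0 < r := by linarith
  obtain ⟨ρ, hρ⟩ : ∃ ρ : ℝ, ρ = rho k * r ^ M := ⟨_, rfl⟩
  rw [← hρ] at hr1
  have hρpos : 0 < ρ := by linarith
  have hrM1 : r ^ M < 1 := pow_lt_one₀ hr0.le hr5 (by omega)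
  have hρlt : ρ < 1 := by
    have h1 := rho_lt k
    have h2 := rho_pos k
    have h3 : 0 < r ^ M := by positivity
    rw [hρ]; nlinarith
  have hρsq : 1 - ρ ^ 2 ≤ 1 - ρ0 ^ 2 := by
    have : ρ0 ^ 2 ≤ ρ ^ 2 := by gcongr
    linarith
  have hρB : 2 * 1 * (1 - ρ ^ 2) * B ^ 2 ≤ A * 1 := by
    refine le_trans ?_ hρ0B
    gcongr
  have hρε : 1 * 1 * (1 - ρ ^ 2) / (2 * (1 + ρ ^ 2)) ≤ 1 / 8 := by
    refine le_trans ?_ hρ0ε
    apply div_le_div₀
    · have : ρ0 ^ 2 ≤ 1 := by nlinarith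
      linarith
    · linarith
    · positivity
    · linarith
  -- the disc
  have hα := d.hα k
  have hβ := d.hβ k
  have hαβ := d.hαβ k
  have hx0 : ‖x 0‖ ^ 2 + ‖x 1‖ ^ 2 < (1 / 8) ^ 2 := by
    rw [← norm_sq2]; gcongr
  have hx1 : ‖x 0‖ ≤ 1 / 8 := by nlinarith [norm_nonneg (x 0), sq_nonneg ‖x 1‖]
  have hx2 : ‖x 1‖ ≤ 1 / 8 := by nlinarith [norm_nonneg (x 1), sq_nonneg ‖x 0‖]
  have hrα : 1 / 4 ≤ r * d.α k := by nlinarith
  have hrβ : 1 / 4 ≤ r * d.β k := by nlinarith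
  obtain ⟨a, ha⟩ : ∃ a : ℂ, a = x 0 / (r * d.α k : ℝ) := ⟨_, rfl⟩
  obtain ⟨b, hb⟩ : ∃ b : ℂ, b = x 1 / (r * d.β k : ℝ) := ⟨_, rfl⟩
  have ha1 : ‖a‖ ≤ 1 / 2 := by
    rw [ha, norm_div, Complex.norm_real, Real.norm_eq_abs, abs_of_pos (by linarith),
      div_le_iff₀ (by linarith)]
    linarith
  have hb1 : ‖b‖ ≤ 1 / 2 := by
    rw [hb, norm_div, Complex.norm_real, Real.norm_eq_abs, abs_of_pos (by linarith),
      div_le_iff₀ (by linarith)]
    linarith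
  have ha2 : ‖a‖ < 1 := by linarith
  have hb2 : ‖b‖ < 1 := by linarith
  obtain ⟨φ, hφ⟩ : ∃ φ : ℂ → Cn 2, φ = fun t => !₂[((r * d.α k : ℝ) : ℂ) * mob a t,
    ((r * d.β k : ℝ) : ℂ) * mob b t] := ⟨_, rfl⟩
  have hφ0 : ∀ t, φ t 0 = ((r * d.α k : ℝ) : ℂ) * mob a t := by intro t; rw [hφ]; rfl
  have hφ1 : ∀ t, φ t 1 = ((r * d.β k : ℝ) : ℂ) * mob b t := by intro t; rw [hφ]; rfl
  have hn0 : ∀ t, ‖φ t 0‖ = r * d.α k * ‖mob a t‖ := by
    intro t
    rw [hφ0, norm_mul, Complex.norm_real, Real.norm_eq_abs, abs_of_pos (by linarith)]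
  have hn1 : ∀ t, ‖φ t 1‖ = r * d.β k * ‖mob b t‖ := by
    intro t
    rw [hφ1, norm_mul, Complex.norm_real, Real.norm_eq_abs, abs_of_pos (by linarith)]
  have hφa : AnalyticOnNhd ℂ φ (closedBall 0 1) := by
    rw [hφ]
    apply analyticOnNhd_pair
    · intro t ht
      exact analyticAt_const.mul (analytic_mob ha2 t ht)
    · intro t ht
      exact analyticAt_const.mul (analytic_mob hb2 t ht)
  have hm : MapsTo φ (closedBall 0 1) B2 := by
    intro t ht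
    have ht1 : ‖t‖ ≤ 1 := by simpa using ht
    have h1 := norm_mob_le ha2 ht1
    have h2 := norm_mob_le hb2 ht1
    rw [mem_B2, hn0, hn1]
    have h3 : (r * d.α k * ‖mob a t‖) ^ 2 ≤ (r * d.α k * 1) ^ 2 := by gcongr
    have h4 : (r * d.β k * ‖mob b t‖) ^ 2 ≤ (r * d.β k * 1) ^ 2 := by gcongr
    have h5 : (r * d.α k * 1) ^ 2 + (r * d.β k * 1) ^ 2 = r ^ 2 := by
      linear_combination r ^ 2 * hαβ
    have h6 : r ^ 2 < 1 := by nlinarith
    linarith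
  have hφx : φ 0 = x := by
    ext i
    fin_cases i
    · change φ 0 0 = x 0
      rw [hφ0, mob_zero, ha]
      have : ((r * d.α k : ℝ) : ℂ) ≠ 0 := by
        rw [Complex.ofReal_ne_zero]; linarith
      field_simp
    · change φ 0 1 = x 1
      rw [hφ1, mob_zero, hb]
      have : ((r * d.β k : ℝ) : ℂ) ≠ 0 := by
        rw [Complex.ofReal_ne_zero]; linarith
      field_simp
  -- the inner function
  obtain ⟨τ, hτ⟩ : ∃ τ : ℂ → ℂ, τ = fun t => mob a t ^ d.P k * mob b t ^ d.Q k := ⟨_, rfl⟩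
  have hτn : ∀ t, ‖τ t‖ = ‖mob a t‖ ^ d.P k * ‖mob b t‖ ^ d.Q k := by
    intro t; rw [hτ]; simp only [norm_mul, norm_pow]
  have hτ1 : ∀ t, ‖t‖ ≤ 1 → ‖τ t‖ ≤ 1 := by
    intro t ht
    rw [hτn]
    exact mul_le_one₀ (pow_le_one₀ (norm_nonneg _) (norm_mob_le ha2 ht)) (by positivity)
      (pow_le_one₀ (norm_nonneg _) (norm_mob_le hb2 ht))
  have hτa : AnalyticOnNhd ℂ τ (closedBall 0 1) := by
    rw [hτ]
    intro t ht
    exact ((analytic_mob ha2 t ht).pow _).mul ((analytic_mob hb2 t ht).pow _)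
  have hf : ∀ t, d.f k (φ t) = ((r ^ M : ℝ) : ℂ) * τ t := by
    intro t
    have hα0 : (d.α k : ℂ) ≠ 0 := by rw [Complex.ofReal_ne_zero]; linarith
    have hβ0 : (d.β k : ℂ) ≠ 0 := by rw [Complex.ofReal_ne_zero]; linarith
    unfold Data.f
    rw [hφ0, hφ1, hτ, hM]
    have e1 : ((r * d.α k : ℝ) : ℂ) * mob a t / (d.α k : ℂ) = r * mob a t := by
      push_cast; field_simp
    have e2 : ((r * d.β k : ℝ) : ℂ) * mob b t / (d.β k : ℂ) = r * mob b t := by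
      push_cast; field_simp
    rw [e1, e2]
    push_cast
    ring
  have hρτ : ∀ t, ‖t‖ ≤ 1 → ‖(ρ : ℂ) * τ t‖ < 1 := by
    intro t ht
    rw [norm_mul, Complex.norm_real, Real.norm_eq_abs, abs_of_pos hρpos]
    have := hτ1 t ht
    nlinarith [norm_nonneg (τ t)]
  have hne : ∀ t, ‖t‖ ≤ 1 → (1 : ℂ) - ρ * τ t ≠ 0 := by
    intro t ht h
    have h1 : (ρ : ℂ) * τ t = 1 := by linear_combination -h
    have h2 := hρτ t ht
    rw [h1, norm_one] at h2
    exact lt_irrefl _ h2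
  obtain ⟨W, hW⟩ : ∃ W : ℂ → ℂ, W = fun t => (1 + ρ * τ t) / (1 - ρ * τ t) := ⟨_, rfl⟩
  have hWa : AnalyticOnNhd ℂ W (closedBall 0 1) := by
    rw [hW]
    intro t ht
    exact (analyticAt_const.add (analyticAt_const.mul (hτa t ht))).div
      (analyticAt_const.sub (analyticAt_const.mul (hτa t ht))) (hne t (by simpa using ht))
  have hWre : ∀ t, ‖t‖ ≤ 1 → 0 < (W t).re := by
    intro t ht
    rw [hW]
    exact cayley_re_pos (hρτ t ht)
  have hWB : ∀ t, ‖t‖ ≤ 1 → W t + B ≠ 0 := by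
    intro t ht h0
    have h1 := congrArg Complex.re h0
    have h2 := hWre t ht
    simp at h1
    linarith
  obtain ⟨cst, hcst⟩ : ∃ c : ℝ, c = 1 * 1 * (1 - ρ ^ 2) / (2 * (1 + ρ ^ 2)) := ⟨_, rfl⟩
  obtain ⟨G, hG⟩ : ∃ G : ℂ → ℂ, G = fun t =>
    (-((1 : ℝ) : ℂ) * W t + A * W t / (W t + B)) + (cst : ℂ) := ⟨_, rfl⟩
  have hGa : AnalyticOnNhd ℂ G (closedBall 0 1) := by
    rw [hG]
    intro t ht
    have h1 := hWa t ht
    exact ((analyticAt_const.mul h1).add ((analyticAt_const.mul h1).div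
      (h1.add analyticAt_const) (hWB t (by simpa using ht)))).add analyticAt_const
  have hle : ∀ t ∈ sphere (0 : ℂ) 1, v (φ t) ≤ (((G t).re : ℝ) : EReal) := by
    intro t ht
    have htb : t ∈ closedBall (0 : ℂ) 1 := sphere_subset_closedBall ht
    have ht1 : ‖t‖ = 1 := by simpa using ht
    have hτ2 : ‖τ t‖ = 1 := by
      rw [hτn, norm_mob_eq ha2 ht1, norm_mob_eq hb2 ht1, one_pow, one_pow, one_mul]
    have hz := hm htb
    have h1 := hC _ hz
    have h2 := hv.2.1 _ hz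
    -- `k` is the exceptional index
    have h3 : (1 / 2 : ℝ) ^ (k + 0 + 3) < Real.exp (-((d.P (k + 0) + d.Q (k + 0) : ℝ) *
        (d.α (k + 0) - ‖φ t 0‖) ^ 2 / 2)) := by
      have h4 := norm_f_le_sep d k hz
      rw [hf, norm_mul, hτ2, mul_one, Complex.norm_real, Real.norm_eq_abs,
        abs_of_pos (by positivity)] at h4
      have h5 : (1 / 2 : ℝ) ^ (k + 0 + 3) ≤ (1 / 2) ^ 1 :=
        pow_le_pow_of_le_one (by norm_num) (by norm_num) (by omega)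
      rw [pow_one] at h5
      simp only [add_zero] at h5 ⊢
      linarith
    have h6 := V_le_of d hz (small_of d (N := 0) (k0 := k) hz h3)
    rw [add_zero, one_add_h d k hz, hf] at h6
    have e1 : (rho k : ℂ) * (((r ^ M : ℝ) : ℂ) * τ t) = ρ * τ t := by
      rw [hρ]; push_cast; ring
    rw [e1] at h6
    have e2 : (1 + (ρ : ℂ) * τ t) / (1 - ρ * τ t) = W t := by rw [hW]
    rw [e2] at h6
    have h7 : v (φ t) ≤ ((min 0 (C - (W t).re) : ℝ) : EReal) := by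
      rcases min_choice 0 (C - (W t).re) with h5 | h5 <;> rw [h5]
      · exact h2
      · refine h1.trans ?_
        rw [← EReal.coe_add, EReal.coe_le_coe_iff]
        linarith
    refine h7.trans ?_
    rw [EReal.coe_le_coe_iff]
    have h5 := majorant one_pos hρpos hρlt one_pos hA0 hB0 hρB hτ2 (t := min 0 (C - (W t).re))
      (W t) (by rw [hW]; push_cast; ring) (min_le_left _ _) (by
        refine (min_le_right _ _).trans ?_
        linarith)
    have e3 : (G t).re = (-((1 : ℝ) : ℂ) * W t + A * W t / (W t + B)).re + cst := by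
      rw [hG]
      simp only [Complex.add_re, Complex.ofReal_re]
    rw [e3, hcst]
    exact h5
  have key := le_re_of_le hv.1 hφa hm hGa hle
  rw [hφx] at key
  refine key.trans ?_
  rw [EReal.coe_le_coe_iff]
  -- the value at the centre
  have hτ0 : ‖(ρ : ℂ) * τ 0‖ ≤ 1 / 8 := by
    have h1 : ‖τ 0‖ ≤ (1 / 2) ^ M := by
      rw [hτn, mob_zero, mob_zero, hM, pow_add]
      gcongr
    have h2 : (1 / 2 : ℝ) ^ M ≤ (1 / 2) ^ 3 :=
      pow_le_pow_of_le_one (by norm_num) (by norm_num) hM3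
    rw [norm_mul, Complex.norm_real, Real.norm_eq_abs, abs_of_pos hρpos]
    have h3 : ‖τ 0‖ ≤ 1 / 8 := by
      refine (h1.trans h2).trans (le_of_eq ?_)
      norm_num
    nlinarith [norm_nonneg (τ 0)]
  have hW0 := cayley_small hτ0
  have e2 : (1 + (ρ : ℂ) * τ 0) / (1 - ρ * τ 0) = W 0 := by rw [hW]
  rw [e2] at hW0
  have h8 : ‖(A : ℂ) * W 0 / (W 0 + B)‖ ≤ 9 / 112 := by
    rw [norm_div, norm_mul, Complex.norm_real, Real.norm_eq_abs, abs_of_pos hA0]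
    have h9 : B ≤ ‖W 0 + B‖ := by
      have h10 := Complex.re_le_norm (W 0 + B)
      rw [Complex.add_re, Complex.ofReal_re] at h10
      linarith [hW0.1]
    rw [div_le_iff₀ (by linarith)]
    have h11 : A * ‖W 0‖ ≤ A * (9 / 7) := by gcongr; exact hW0.2
    have h12 : 9 / 112 * B ≤ 9 / 112 * ‖W 0 + B‖ := by gcongr
    rw [hB] at h12
    linarith
  have h9 := (Complex.re_le_norm ((A : ℂ) * W 0 / (W 0 + B))).trans h8
  have e3 : (G 0).re = -(W 0).re + ((A : ℂ) * W 0 / (W 0 + B)).re + cst := by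
    rw [hG]
    simp only [Complex.add_re, Complex.ofReal_re, Complex.ofReal_one, neg_mul, one_mul,
      Complex.neg_re]
  rw [e3]
  rw [← hcst] at hρε
  linarith [hW0.1]

theorem res_le_neg_half {x : Cn 2} (hx : x ∈ ball (0 : Cn 2) (1 / 8)) :
    res B2 (fun z => ((d.V 0 z : ℝ) : EReal)) x ≤ ((-(1 / 2) : ℝ) : EReal) := by
  unfold res
  refine reg_le (D := ball (0 : Cn 2) (1 / 8)) (g := fun _ => -(1 / 2)) isOpen_ball
    continuousOn_const ?_ hx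
  intro y hy
  apply sSup_le
  rintro t ⟨v, hv, ⟨C, hC⟩, rfl⟩
  exact upper d hv hC (by simpa using hy)

end Q72.Res
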